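import Pool.Agent.H68.QC.Targets

/-!
# AVR: a set of quantum algorithms is not right in most simulations
-/

set_option autoImplicit false

namespace Pool.Agent.H22.QC

open Finset Filter Pool.Agent.H6.NB Pool.Agent.H70.OQ Pool.Agent.H70.RK Pool.Agent.H70.RC
open Pool.Agent.H70.RW (SimK)
open Pool.Agent.H68.QC

theorem ic_pos {p : Prop} (h : p) : ic p = 1 := by
  unfold ic
  rw [if_pos h]

theorem ic_neg {p : Prop} (h : ¬ p) : ic p = 0 := by
  unfold ic
  rw [if_neg h]

theorem ic_nn (p : Prop) : 0 ≤ ic p := by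
  by_cases h : p
  · rw [ic_pos h]; norm_num
  · rw [ic_neg h]

theorem ncard_ic {ι : Type} [Fintype ι] (P : ι → Prop) :
    (({i | P i} : Set ι).ncard : ℝ) = ∑ i, ic (P i) := by
  classical
  rw [Set.ncard_eq_toFinset_card', Set.toFinset_ofPred, Finset.card_filter]
  push_cast
  refine Finset.sum_congr rfl fun i _ => ?_
  by_cases h : P i
  · rw [ic_pos h, if_pos h]
  · rw [ic_neg h, if_neg h]

open Classical in
theorem fR_some {l n N : ℕ} {X : (Fin N → Bool) → Bool} {b : Bool} (h : fR l n N X = some b) :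
    List.replicate n false ∉ hlang l (orc N X) ↔ b = true := by
  unfold fR at h
  split_ifs at h with h1
  · have h2 := Option.some.inj h
    rw [← h2, decide_eq_true_iff]

theorem half (n : ℕ) : ∑ x : Fin (n + 1) → Bool, ic (x 0 = true) = (2 : ℝ) ^ n := by
  rw [← Equiv.sum_comp (Fin.consEquiv fun _ : Fin (n + 1) => Bool), Fintype.sum_prod_type]
  have h1 : ∀ (b : Bool) (y : Fin n → Bool),
      (((Fin.consEquiv fun _ : Fin (n + 1) => Bool) (b, y)) 0 = true) = (b = true) := by
    intro b y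
    simp [Fin.consEquiv]
  simp only [h1]
  rw [Fintype.sum_bool, ic_pos rfl, ic_neg (by simp)]
  simp

theorem pf_AVR (hTJR : T_TJR) (hMKX : T_MKX) (hFXU : T_FXU) (hSCX : T_SCX) (hARN : T_ARN)
    (hAMN : T_AMN) : T_AVR := by
  intro k c C ε hk hε
  obtain ⟨k', rfl⟩ : ∃ k', k = k' + 1 := ⟨k - 1, by omega⟩
  filter_upwards [hTJR k' c C ε hε, eventually_ge_atTop 1] with n hn hn1 mw m R hmw hm hR hsim
  obtain ⟨n', rfl⟩ : ∃ n', n = n' + 1 := ⟨n - 1, by omega⟩
  obtain ⟨e, he, hbad⟩ := hsim
  obtain ⟨-, φ, hφ⟩ := hMKX (n' + 1) (k' + 1) (fun _ => true)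
  -- the bad pairs
  let bad : Fin (2 ^ (nod (n' + 1) (k' + 1)) + 1) → ((Fin (nod (n' + 1) (k' + 1)) → Bool) → Bool) → Prop := fun i X =>
    ¬ (sec (fun w => e i w X) (nod (n' + 1) (k' + 1)) = X ∧
      ((List.replicate (n' + 1) false ∉ hlang (k' + 1) (fun w => e i w X) →
        YesP R fun w => e i w X) ∧
      (List.replicate (n' + 1) false ∈ hlang (k' + 1) (fun w => e i w X) →
        NoP R fun w => e i w X)))
  have hbad' : ∀ X, fR (k' + 1) (n' + 1) (nod (n' + 1) (k' + 1)) X ≠ none →
      100 * ∑ i, ic (bad i X) ≤ (2 : ℝ) ^ (nod (n' + 1) (k' + 1)) + 1 := by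
    intro X hX
    rw [← ncard_ic]
    exact_mod_cast hbad X hX
  -- the tables
  let mT : Hid (Fin (n' + 1) → Bool) (Ys (n' + 1)) (k' + 1) → (Fin (nod (n' + 1) (k' + 1)) → Bool) → Bool := fun H =>
    mkX (n' + 1) (k' + 1) (nod (n' + 1) (k' + 1)) (tabT (k' + 1) H)
  let mU : Hid (Fin (n' + 1) → Bool) (Ys (n' + 1)) (k' + 1) → (Fin (n' + 1) → Bool) →
      (Fin (nod (n' + 1) (k' + 1)) → Bool) → Bool := fun H x => mkX (n' + 1) (k' + 1) (nod (n' + 1) (k' + 1)) (tabU (k' + 1) H x)
  have hfT : ∀ H, fR (k' + 1) (n' + 1) (nod (n' + 1) (k' + 1)) (mT H) = some true := fun H =>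
    (hFXU (k' + 1) n' H (fun _ => true)).2.2
  have hfU : ∀ H x, fR (k' + 1) (n' + 1) (nod (n' + 1) (k' + 1)) (mU H x) = some (!x 0) := fun H x =>
    (hFXU (k' + 1) n' H x).2.1
  let W : Fin (2 ^ (nod (n' + 1) (k' + 1)) + 1) → Hid (Fin (n' + 1) → Bool) (Ys (n' + 1)) (k' + 1) → ℝ := fun i H =>
    2 ^ (n' + 1) * ic (bad i (mT H)) + ∑ x, ic (bad i (mU H x))
  have hW0 : ∀ i H, 0 ≤ W i H := fun i H =>
    add_nonneg (mul_nonneg (by positivity) (ic_nn _)) (Finset.sum_nonneg fun x _ => ic_nn _)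
  have hA : (0 : ℝ) < Fintype.card (Hid (Fin (n' + 1) → Bool) (Ys (n' + 1)) (k' + 1)) := by
    have hne : ∀ j : ℕ, Nonempty (Hid (Fin (n' + 1) → Bool) (Ys (n' + 1)) j) := by
      intro j
      induction j with
      | zero => exact ⟨()⟩
      | succ j ih =>
        obtain ⟨H⟩ := ih
        exact ⟨(H, fun _ => fun _ => false)⟩
    have := hne (k' + 1)
    exact_mod_cast Fintype.card_pos
  -- every simulation is bad for many tables
  have hlow : ∀ i, 2 * 2 ^ (n' + 1) *
      (Fintype.card (Hid (Fin (n' + 1) → Bool) (Ys (n' + 1)) (k' + 1)) : ℝ) <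
        100 * ∑ H, W i H := by
    intro i
    have hm1 : max m 1 ≤ (n' + 1) ^ c := max_le hm (Nat.one_le_pow _ _ (by omega))
    have hAdp : ∀ w, Adp (Qst (Nn (n' + 1) (k' + 1)) (max m 1) (k' + 1)) (max m 1)
        (fun y => e i w (mkX (n' + 1) (k' + 1) (nod (n' + 1) (k' + 1)) y)) := by
      intro w
      have h1 := hARN _ _ φ m m (k' + 1) (e i w) (he i w)
      have h2 := hAMN _ m (max m 1) (k' + 1) _ (le_max_left _ _) h1
      have h3 : (fun y => e i w (mkX (n' + 1) (k' + 1) (nod (n' + 1) (k' + 1)) y)) = fun y => e i w fun v => y (φ v) := by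
        funext y
        congr 1
        funext v
        exact hφ y v
      rw [h3]
      exact h2
    obtain ⟨K, hK, hB⟩ := hn mw (max m 1) R (fun w y => e i w (mkX (n' + 1) (k' + 1) (nod (n' + 1) (k' + 1)) y))
      (hmw.trans (le_max_left _ _)) (le_max_right _ _) hm1 hR hAdp
    have hB' : 100 * ∑ H, ic (Bad false K (k' + 1)
        (fun y => NoP R fun w => e i w (mkX (n' + 1) (k' + 1) (nod (n' + 1) (k' + 1)) y))
        (fun y => YesP R fun w => e i w (mkX (n' + 1) (k' + 1) (nod (n' + 1) (k' + 1)) y)) H) ≤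
        (Fintype.card (Hid (Fin (n' + 1) → Bool) (Ys (n' + 1)) (k' + 1)) : ℝ) := by
      rw [← ncard_ic]
      exact_mod_cast hB
    have hK' : 100 * (K : ℝ) ≤ 2 * 2 ^ n' := by
      have : (100 : ℝ) * K ≤ 2 ^ (n' + 1) := by exact_mod_cast hK
      rw [pow_succ] at this
      linarith
    have hpt : ∀ H, (2 : ℝ) ^ n' - K ≤ W i H + 2 ^ n' * ic (Bad false K (k' + 1)
        (fun y => NoP R fun w => e i w (mkX (n' + 1) (k' + 1) (nod (n' + 1) (k' + 1)) y))
        (fun y => YesP R fun w => e i w (mkX (n' + 1) (k' + 1) (nod (n' + 1) (k' + 1)) y)) H) := by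
      intro H
      have hK0 : (0 : ℝ) ≤ K := Nat.cast_nonneg _
      have hP : (0 : ℝ) < 2 ^ n' := by positivity
      by_cases hH : Bad false K (k' + 1)
        (fun y => NoP R fun w => e i w (mkX (n' + 1) (k' + 1) (nod (n' + 1) (k' + 1)) y))
        (fun y => YesP R fun w => e i w (mkX (n' + 1) (k' + 1) (nod (n' + 1) (k' + 1)) y)) H
      · rw [ic_pos hH]
        have := hW0 i H
        linarith
      · rw [ic_neg hH, mul_zero, add_zero]
        have hx0 : ∀ (O : List Bool → Bool) (X : (Fin (nod (n' + 1) (k' + 1)) → Bool) → Bool) (b : Bool),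
            fR (k' + 1) (n' + 1) (nod (n' + 1) (k' + 1)) X = some b → sec O (nod (n' + 1) (k' + 1)) = X →
            (List.replicate (n' + 1) false ∉ hlang (k' + 1) O ↔ b = true) := by
          intro O X b h1 h2
          rw [← fR_some h1]
          exact not_congr (hSCX (k' + 1) (n' + 1) O X h2).2
        by_cases hT : bad i (mT H)
        · have h1 : (2 : ℝ) ^ (n' + 1) * 1 ≤ W i H := by
            change _ ≤ 2 ^ (n' + 1) * ic (bad i (mT H)) + ∑ x, ic (bad i (mU H x))
            rw [ic_pos hT]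
            have := Finset.sum_nonneg fun x (_ : x ∈ (univ : Finset (Fin (n' + 1) → Bool))) =>
              ic_nn (bad i (mU H x))
            linarith
          rw [pow_succ] at h1
          linarith
        · have hT' := not_not.1 hT
          have hyes : YesP R fun w => e i w (mT H) :=
            hT'.2.1 ((hx0 _ _ _ (hfT H) hT'.1).2 rfl)
          have hcard : ({x : Fin (n' + 1) → Bool | NoP R fun w =>
              e i w (mkX (n' + 1) (k' + 1) (nod (n' + 1) (k' + 1)) (tabU (k' + 1) H x))}).ncard ≤ K := by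
            by_contra hc
            exact hH ⟨not_le.1 hc, hyes⟩
          have hcard' : ∑ x : Fin (n' + 1) → Bool, ic (NoP R fun w => e i w (mU H x)) ≤ (K : ℝ) := by
            rw [← ncard_ic]
            exact_mod_cast hcard
          have h2 : ∑ x : Fin (n' + 1) → Bool, ic (x 0 = true) ≤
              ∑ x : Fin (n' + 1) → Bool, (ic (NoP R fun w => e i w (mU H x)) +
                ic (bad i (mU H x))) := by
            refine Finset.sum_le_sum fun x _ => ?_
            by_cases hx : x 0 = true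
            · rw [ic_pos hx]
              by_cases hb : bad i (mU H x)
              · rw [ic_pos hb]
                have := ic_nn (NoP R fun w => e i w (mU H x))
                linarith
              · have hb' := not_not.1 hb
                have h3 : NoP R fun w => e i w (mU H x) := by
                  refine hb'.2.2 ?_
                  by_contra h4
                  have h5 := (hx0 _ _ _ (hfU H x) hb'.1).1 h4
                  rw [hx] at h5
                  exact absurd h5 (by simp)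
                rw [ic_pos h3, ic_neg hb]
                norm_num
            · rw [ic_neg hx]
              exact add_nonneg (ic_nn _) (ic_nn _)
          rw [half, Finset.sum_add_distrib] at h2
          have h3 : W i H = ∑ x, ic (bad i (mU H x)) := by
            change 2 ^ (n' + 1) * ic (bad i (mT H)) + ∑ x, ic (bad i (mU H x)) = _
            rw [ic_neg hT, mul_zero, zero_add]
          rw [h3]
          linarith
    have hsum := Finset.sum_le_sum fun H (_ : H ∈ (univ : Finset (Hid (Fin (n' + 1) → Bool)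
      (Ys (n' + 1)) (k' + 1)))) => hpt H
    rw [Finset.sum_add_distrib, ← Finset.mul_sum, Finset.sum_const, Finset.card_univ,
      nsmul_eq_mul] at hsum
    have hP : (0 : ℝ) < 2 ^ n' := by positivity
    rw [pow_succ]
    have h5 := mul_le_mul_of_nonneg_left hB' hP.le
    have h6 := mul_le_mul_of_nonneg_left hK' hA.le
    have h7 := mul_pos hP hA
    nlinarith
  -- the sum over all simulations
  have hup : 100 * ∑ i, ∑ H, W i H ≤ (2 ^ (nod (n' + 1) (k' + 1)) + 1) * (2 * 2 ^ (n' + 1) *
      (Fintype.card (Hid (Fin (n' + 1) → Bool) (Ys (n' + 1)) (k' + 1)) : ℝ)) := by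
    rw [Finset.sum_comm, Finset.mul_sum]
    have h1 : ∀ H, 100 * ∑ i, W i H ≤ (2 ^ (nod (n' + 1) (k' + 1)) + 1) * (2 * 2 ^ (n' + 1)) := by
      intro H
      have h2 : ∑ i, W i H = 2 ^ (n' + 1) * ∑ i, ic (bad i (mT H)) +
          ∑ x, ∑ i, ic (bad i (mU H x)) := by
        change ∑ i, (2 ^ (n' + 1) * ic (bad i (mT H)) + ∑ x, ic (bad i (mU H x))) = _
        rw [Finset.sum_add_distrib, ← Finset.mul_sum, Finset.sum_comm]
      have h3 := hbad' (mT H) (by rw [hfT H]; simp)
      have h4 : 100 * ∑ x, ∑ i, ic (bad i (mU H x)) ≤ 2 ^ (n' + 1) * (2 ^ (nod (n' + 1) (k' + 1)) + 1) := by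
        rw [Finset.mul_sum]
        refine (Finset.sum_le_sum fun x _ => hbad' (mU H x) (by rw [hfU H x]; simp)).trans ?_
        rw [Finset.sum_const, Finset.card_univ, nsmul_eq_mul]
        simp
      rw [h2]
      have h5 : (0 : ℝ) < 2 ^ (n' + 1) := by positivity
      nlinarith [mul_le_mul_of_nonneg_left h3 h5.le]
    refine (Finset.sum_le_sum fun H _ => h1 H).trans ?_
    rw [Finset.sum_const, Finset.card_univ, nsmul_eq_mul]
    apply le_of_eq
    ring
  have hlow' : (2 ^ (nod (n' + 1) (k' + 1)) + 1) * (2 * 2 ^ (n' + 1) *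
      (Fintype.card (Hid (Fin (n' + 1) → Bool) (Ys (n' + 1)) (k' + 1)) : ℝ)) <
      100 * ∑ i, ∑ H, W i H := by
    rw [Finset.mul_sum]
    have h1 : ∑ _i : Fin (2 ^ (nod (n' + 1) (k' + 1)) + 1), (2 * 2 ^ (n' + 1) *
      (Fintype.card (Hid (Fin (n' + 1) → Bool) (Ys (n' + 1)) (k' + 1)) : ℝ)) <
        ∑ i, 100 * ∑ H, W i H :=
      Finset.sum_lt_sum_of_nonempty ⟨0, Finset.mem_univ _⟩ fun i _ => hlow i
    rw [Finset.sum_const, Finset.card_univ, Fintype.card_fin, nsmul_eq_mul] at h1
    push_cast at h1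
    exact h1
  exact absurd hup (not_le.2 hlow')

end Pool.Agent.H22.QC
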