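import Pool.Agent.H95.ProdMeas

/-! Independence of functions of disjoint blocks (helper22). -/

set_option autoImplicit false

open MeasureTheory ProbabilityTheory

namespace Pool.Agent.H22.QC
open Pool.Agent.H95

variable {E : Type*} [MeasurableSpace E] (ν : Measure E) [IsProbabilityMeasure ν]

/-- the blocks -/
def blk (E : Type*) (J ℓ : ℕ) (w : ℕ → E) (a : Fin J) (i : Fin ℓ) : E := w (i + a * ℓ)

omit [MeasurableSpace E] in
theorem blk_inj (J ℓ : ℕ) : Function.Injective (fun p : Fin J × Fin ℓ => (p.2 : ℕ) + p.1 * ℓ) := by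
  rintro ⟨a, i⟩ ⟨b, j⟩ h
  simp only at h
  have hi := i.2
  have hj := j.2
  have hℓ : 0 < ℓ := by omega
  have h1 : ((i : ℕ) + a * ℓ) / ℓ = a := by
    rw [Nat.add_mul_div_right _ _ hℓ, Nat.div_eq_of_lt hi, zero_add]
  have h2 : ((j : ℕ) + b * ℓ) / ℓ = b := by
    rw [Nat.add_mul_div_right _ _ hℓ, Nat.div_eq_of_lt hj, zero_add]
  have h3 : (a : ℕ) = b := by rw [← h1, ← h2, h]
  have h4 : (i : ℕ) = j := by rw [h3] at h; omega
  exact Prod.ext (Fin.ext h3) (Fin.ext h4)

theorem blk_map (J ℓ : ℕ) :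
    (iid ν).map (blk E J ℓ) = Measure.infinitePi (fun _ : Fin J =>
      Measure.infinitePi (fun _ : Fin ℓ => ν)) := by
  have h1 := Measure.map_infinitePi_infinitePi_of_inj (P := fun _ : ℕ => ν) (blk_inj J ℓ)
  have h2 := Measure.infinitePi_map_curry (ι := Fin J) (κ := Fin ℓ) (fun _ _ => ν)
  rw [← h2, ← h1, Measure.map_map (MeasurableEquiv.curry _ _ _).measurable (by fun_prop)]
  rfl

theorem blk_indep (J ℓ : ℕ) : iIndepFun (fun (a : Fin J) (w : ℕ → E) => blk E J ℓ w a) (iid ν) := by
  have hm : ∀ a : Fin J, Measurable (fun w : ℕ → E => blk E J ℓ w a) := by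
    intro a
    unfold blk
    fun_prop
  rw [iIndepFun_iff_map_fun_eq_infinitePi_map hm]
  have h1 := blk_map ν J ℓ
  have h2 : ∀ a : Fin J, (iid ν).map (fun w : ℕ → E => blk E J ℓ w a) =
      Measure.infinitePi (fun _ : Fin ℓ => ν) := by
    intro a
    exact Measure.map_infinitePi_infinitePi_of_inj (P := fun _ : ℕ => ν)
      (f := fun i : Fin ℓ => (i : ℕ) + a * ℓ) (fun i j h => by
        simp only at h; exact Fin.ext (by omega))
  simp_rw [h2]
  exact h1

/-- functions of disjoint blocks are independent -/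
theorem indep_blocks {ℓ J : ℕ} (f : ℕ → (ℕ → E) → ℝ) (hf : ∀ a, DepLt ℓ (f a))
    (hm : ∀ a, Measurable (f a)) :
    iIndepFun (fun (a : Fin J) (w : ℕ → E) => f a (shift (a * ℓ) w)) (iid ν) := by
  classical
  obtain ⟨e0⟩ : Nonempty E := by
    by_contra h
    rw [not_nonempty_iff] at h
    have h1 : ν Set.univ = 1 := measure_univ
    rw [Set.univ_eq_empty_iff.2 h, measure_empty] at h1
    exact zero_ne_one h1
  let ext : (Fin ℓ → E) → ℕ → E := fun v k => if h : k < ℓ then v ⟨k, h⟩ else e0
  have hext : Measurable ext := by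
    refine measurable_pi_lambda _ fun k => ?_
    by_cases h : k < ℓ
    · simp only [ext, h, dif_pos]
      exact measurable_pi_apply _
    · simp only [ext, h, dif_neg, not_false_eq_true]
      exact measurable_const
  have key : ∀ (a : Fin J) (w : ℕ → E), f a (shift (a * ℓ) w) = f a (ext (blk E J ℓ w a)) := by
    intro a w
    apply hf a
    intro i hi
    simp only [ext, hi, dif_pos, shift_apply, blk]
  simp_rw [key]
  exact (blk_indep ν J ℓ).comp (fun a v => f a (ext v)) (fun a => (hm a).comp hext)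

end Pool.Agent.H22.QC
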