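import Pool.Agent.H95.QC.Blocks
import Pool.Agent.H9.QC.D2
import Pool.Agent.H9.QC.X

/-!
# Decoupling of the logarithm of the partition function: module D5 of MP_f3a553_pr

On the event that all block ratios are bounded below,
`log W_N = ∑ log (Xh_i + er_i)`, and `∑ er_i` is a sum of orthogonal terms.
-/

set_option autoImplicit false
set_option linter.unusedSectionVars false

open MeasureTheory ProbabilityTheory Filter Topology
open scoped ENNReal NNReal BigOperators

namespace Pool.Agent.H22.QC.D5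

open Pool.Agent.H95 Pool.Agent.H95.QC Pool.Agent.H9.QC

/-! ## Deterministic part -/

lemma log_add_le {X e θ : ℝ} (hθ : 0 < θ) (hX : 2 * θ ≤ X) (he : |e| ≤ θ) :
    |Real.log (X + e) - Real.log X - e| ≤ e ^ 2 / (2 * θ ^ 2) + |e| * |X - 1| / (2 * θ) := by
  have hX0 : 0 < X := by linarith
  set u : ℝ := e / X with hu
  have hu1 : |u| ≤ 1 / 2 := by
    rw [hu, abs_div, abs_of_pos hX0, div_le_iff₀ hX0]
    linarith
  have h1 : X + e = X * (1 + u) := by
    rw [hu]; field_simp
  have hu2 : (0 : ℝ) < 1 + u := by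
    have := (abs_le.mp hu1).1
    linarith
  have h2 : Real.log (X + e) = Real.log X + Real.log (1 + u) := by
    rw [h1, Real.log_mul hX0.ne' hu2.ne']
  have h3 : |Real.log (1 + u) - u| ≤ 2 * u ^ 2 := by
    have h4 := Real.abs_log_sub_add_sum_range_le (x := -u) (by rw [abs_neg]; linarith) 1
    simp only [Finset.range_one, Finset.sum_singleton, zero_add, pow_one, Nat.cast_zero, div_one,
      abs_neg, sub_neg_eq_add] at h4
    have e1 : |Real.log (1 + u) - u| = |-u + Real.log (1 + u)| := by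
      congr 1; ring
    rw [e1]
    refine h4.trans ?_
    rw [div_le_iff₀ (by linarith), show (1 + 1 : ℕ) = 2 from rfl, sq_abs]
    nlinarith [sq_nonneg u, abs_nonneg u]
  have h5 : |u - e| ≤ |e| * |X - 1| / (2 * θ) := by
    have e1 : u - e = -(e * (X - 1) / X) := by
      rw [hu]; field_simp; ring
    rw [e1, abs_neg, abs_div, abs_mul, abs_of_pos hX0]
    exact div_le_div_of_nonneg_left (by positivity) (by linarith) hX
  have h6 : 2 * u ^ 2 ≤ e ^ 2 / (2 * θ ^ 2) := by
    rw [hu, div_pow, ← mul_div_assoc, div_le_div_iff₀ (by positivity) (by positivity)]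
    have : (2 * θ) ^ 2 ≤ X ^ 2 := pow_le_pow_left₀ (by linarith) hX 2
    nlinarith [sq_nonneg e]
  have e2 : Real.log (X + e) - Real.log X - e = (Real.log (1 + u) - u) + (u - e) := by
    rw [h2]; ring
  rw [e2]
  calc |(Real.log (1 + u) - u) + (u - e)| ≤ |Real.log (1 + u) - u| + |u - e| := abs_add_le _ _
    _ ≤ _ := add_le_add (h3.trans h6) h5

section det

variable (M : ℕ) [NeZero M] (n : ℕ → ℕ) (θ : ℝ)

/-- the error terms on the good events -/
noncomputable def e0 (i : ℕ) (w : ℕ → Tor M → ℝ≥0) : ℝ :=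
  {w | Good M n θ i w}.indicator (fun w => er M n i w) w

lemma e0_good {i : ℕ} {w : ℕ → Tor M → ℝ≥0} (h : Good M n θ i w) : e0 M n θ i w = er M n i w :=
  Set.indicator_of_mem (s := {w | Good M n θ i w}) h _

lemma e0_bad {i : ℕ} {w : ℕ → Tor M → ℝ≥0} (h : ¬ Good M n θ i w) : e0 M n θ i w = 0 :=
  Set.indicator_of_notMem (s := {w | Good M n θ i w}) h _

variable {n θ}

lemma det {K : ℕ} (hn0 : n 0 = 0) (hn : ∀ i < K, n i ≤ n (i + 1)) (hθ : 0 < θ)
    {w : ℕ → Tor M → ℝ≥0} (hI : ∀ i < K, 2 * θ ≤ Xh M n i w)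
    (hQ : ∑ i ∈ Finset.range K, e0 M n θ i w ^ 2 ≤ θ ^ 2) :
    |Real.log (WW M (n K) w) - ∑ i ∈ Finset.range K, Yt M n θ i w| ≤
      |∑ i ∈ Finset.range K, e0 M n θ i w| +
        (∑ i ∈ Finset.range K, e0 M n θ i w ^ 2) / (2 * θ ^ 2) +
        (∑ i ∈ Finset.range K, |e0 M n θ i w| * |Xh M n i w - 1|) / (2 * θ) := by
  have he : ∀ i < K, |e0 M n θ i w| ≤ θ := by
    intro i hi
    refine abs_le_of_sq_le_sq (le_trans ?_ hQ) hθ.le
    exact Finset.single_le_sum (f := fun i => e0 M n θ i w ^ 2) (fun j _ => sq_nonneg _)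
      (Finset.mem_range.mpr hi)
  have hgood : ∀ i ≤ K, Good M n θ i w := by
    intro i
    induction i with
    | zero => intro _; exact Good_zero M n θ w
    | succ i ih =>
      intro hi
      have hg := ih (by omega)
      rw [Good_succ]
      refine ⟨hg, ?_⟩
      have hpos := hg.pos M hn0 hθ
      rw [ratio_eq M (hn i (by omega)) w hpos.ne', mul_comm θ]
      apply mul_le_mul_of_nonneg_left _ hpos.le
      have h1 := he i (by omega)
      rw [e0_good M n θ hg] at h1
      have h2 := (abs_le.mp h1).1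
      have h3 := hI i (by omega)
      linarith
  have hlog : Real.log (WW M (n K) w) =
      ∑ i ∈ Finset.range K, (Real.log (WW M (n (i + 1)) w) - Real.log (WW M (n i) w)) := by
    rw [Finset.sum_range_sub (fun i => Real.log (WW M (n i) w)), hn0, WW_zero, Real.log_one,
      sub_zero]
  have hterm : ∀ i ∈ Finset.range K,
      |(Real.log (WW M (n (i + 1)) w) - Real.log (WW M (n i) w)) - Yt M n θ i w
        - e0 M n θ i w| ≤ e0 M n θ i w ^ 2 / (2 * θ ^ 2) +
          |e0 M n θ i w| * |Xh M n i w - 1| / (2 * θ) := by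
    intro i hi
    rw [Finset.mem_range] at hi
    have hg := hgood i hi.le
    have hpos := hg.pos M hn0 hθ
    have hX := hI i hi
    have h1 := he i hi
    rw [e0_good M n θ hg] at h1 ⊢
    rw [ratio_eq M (hn i hi) w hpos.ne']
    have h2 : 0 < Xh M n i w + er M n i w := by
      have h2 := (abs_le.mp h1).1
      linarith
    rw [Real.log_mul hpos.ne' h2.ne']
    have h3 : Yt M n θ i w = Real.log (Xh M n i w) := by
      unfold Yt; rw [if_pos hX]
    rw [h3]
    have e1 : Real.log (WW M (n i) w) + Real.log (Xh M n i w + er M n i w) -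
        Real.log (WW M (n i) w) - Real.log (Xh M n i w) - er M n i w =
        Real.log (Xh M n i w + er M n i w) - Real.log (Xh M n i w) - er M n i w := by ring
    rw [e1]
    exact log_add_le hθ hX h1
  have e1 : Real.log (WW M (n K) w) - ∑ i ∈ Finset.range K, Yt M n θ i w =
      ∑ i ∈ Finset.range K, e0 M n θ i w + ∑ i ∈ Finset.range K,
        ((Real.log (WW M (n (i + 1)) w) - Real.log (WW M (n i) w)) - Yt M n θ i w
        - e0 M n θ i w) := by
    rw [hlog, ← Finset.sum_sub_distrib, ← Finset.sum_add_distrib]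
    apply Finset.sum_congr rfl
    intro i _
    ring
  rw [e1, add_assoc]
  refine (abs_add_le _ _).trans (add_le_add le_rfl ?_)
  refine (Finset.abs_sum_le_sum_abs _ _).trans ?_
  rw [Finset.sum_div, Finset.sum_div, ← Finset.sum_add_distrib]
  exact Finset.sum_le_sum hterm

end det

/-! ## Probabilistic part -/

section prob

variable {M : ℕ} [NeZero M] {ν : Measure ℝ≥0} {s : ℝ}

/-- one step of the second moment recursion, fixed past -/
lemma add_sq_le (hP2 : TargetP2) (h : Wt ν s) {T : ℕ} (hD : 0 < 1 - s * Rn T) (hM : 2 * T < M)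
    {F : Tor M → ℝ} (hF : ∑ x, F x = 0) (a : ℝ) :
    ∫⁻ w, ENNReal.ofReal ((a + Z (st M) 1 T w F) ^ 2) ∂(env (Tor M) ν) ≤
      ENNReal.ofReal (a ^ 2) + ENNReal.ofReal (s / (1 - s * Rn T) * En M T F) := by
  have hp := h.prob
  have hprob : IsProbabilityMeasure (env (Tor M) ν) := by unfold env; infer_instance
  have hL : MemLp (fun w => Z (st M) 1 T w F) 2 (env (Tor M) ν) := memLp_Z (st M) 1 h T F
  have hmean : ∫ w, Z (st M) 1 T w F ∂(env (Tor M) ν) = 0 := by
    rw [mean_Z (st M) 1 h T F, sum_iterate_step, hF]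
  have hsq := hL.integrable_sq
  have hint := hL.integrable (by norm_num)
  have h1 : ∀ w, (a + Z (st M) 1 T w F) ^ 2 =
      a ^ 2 + (2 * a * Z (st M) 1 T w F + Z (st M) 1 T w F ^ 2) := by
    intro w; ring
  have hi2 : Integrable (fun w => 2 * a * Z (st M) 1 T w F + Z (st M) 1 T w F ^ 2)
      (env (Tor M) ν) := (hint.const_mul (2 * a)).add hsq
  have h2 : ∫ w, (a + Z (st M) 1 T w F) ^ 2 ∂(env (Tor M) ν) =
      a ^ 2 + ∫ w, Z (st M) 1 T w F ^ 2 ∂(env (Tor M) ν) := by
    simp_rw [h1]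
    rw [integral_add (integrable_const _) hi2, integral_add (hint.const_mul (2 * a)) hsq,
      integral_const_mul, hmean]
    simp
  have hi1 : Integrable (fun w => (a + Z (st M) 1 T w F) ^ 2) (env (Tor M) ν) := by
    simp_rw [h1]
    exact (integrable_const _).add hi2
  rw [← ofReal_integral_eq_lintegral_ofReal hi1 (ae_of_all _ fun w => sq_nonneg _), h2,
    ENNReal.ofReal_add (sq_nonneg _) (integral_nonneg fun w => sq_nonneg _)]
  refine add_le_add le_rfl ?_
  rw [ofReal_integral_eq_lintegral_ofReal hsq (ae_of_all _ fun w => sq_nonneg _)]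
  have h3 := hP2 M T ν s F h hD hM
  simpa [hF] using h3

variable {n : ℕ → ℕ} {θ : ℝ}

lemma measurable_e0 (i : ℕ) : Measurable (e0 M n θ i) :=
  (measurable_er M n i).indicator (measurableSet_Good M n θ i)

lemma er_depLt {i : ℕ} (hn : n i ≤ n (i + 1)) : DepLt (n (i + 1)) (er M n i) := by
  intro x x' hx
  unfold er
  have h1 : mu M (n i) x = mu M (n i) x' :=
    mu_depLt M (n i) x x' (fun k hk => hx k (lt_of_lt_of_le hk hn))
  rw [h1]
  apply Z_depLt (st M) 1 (n (i + 1) - n i) (mu M (n i) x' - q M (n i))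
  intro k hk
  simp only [shift_apply]
  apply hx
  omega

lemma e0_depLt {i : ℕ} (hm : ∀ j ≤ i, n j ≤ n i) (hn : n i ≤ n (i + 1)) :
    DepLt (n (i + 1)) (e0 M n θ i) := by
  intro x x' hx
  have h1 : Good M n θ i x = Good M n θ i x' :=
    Good_depLt M hm θ x x' (fun k hk => hx k (lt_of_lt_of_le hk hn))
  have h2 := er_depLt (M := M) hn x x' hx
  by_cases hg : Good M n θ i x
  · rw [e0_good M n θ hg, e0_good M n θ (h1 ▸ hg), h2]
  · rw [e0_bad M n θ hg, e0_bad M n θ (h1 ▸ hg)]

lemma measurable_Zmu (M : ℕ) [NeZero M] (T t : ℕ) :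
    Measurable (fun p : (ℕ → Tor M → ℝ≥0) × (ℕ → Tor M → ℝ≥0) =>
      Z (st M) 1 T p.2 (mu M t p.1 - q M t)) := by
  refine (measurable_Z (st M) 1 T).comp (measurable_snd.prodMk ?_)
  exact ((measurable_mu M t).comp measurable_fst).sub measurable_const

/-- one step of the second moment recursion -/
lemma step_sq (hP2 : TargetP2) (h : Wt ν s) (hn0 : n 0 = 0) (hθ : 0 < θ) {i : ℕ}
    (hm : ∀ j ≤ i, n j ≤ n i) (hD : 0 < 1 - s * Rn (n (i + 1) - n i))
    (hM : 2 * (n (i + 1) - n i) < M)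
    {S : (ℕ → Tor M → ℝ≥0) → ℝ} (hS : Measurable S) (hSd : DepLt (n i) S) :
    ∫⁻ w, ENNReal.ofReal ((S w + e0 M n θ i w) ^ 2) ∂(env (Tor M) ν) ≤
      ∫⁻ w, ENNReal.ofReal (S w ^ 2) ∂(env (Tor M) ν) +
      ∫⁻ w in {w | Good M n θ i w}, ENNReal.ofReal (s / (1 - s * Rn (n (i + 1) - n i)) *
        En M (n (i + 1) - n i) (mu M (n i) w - q M (n i))) ∂(env (Tor M) ν) := by
  have hp := h.prob
  set T := n (i + 1) - n i with hT
  set A : Set (ℕ → Tor M → ℝ≥0) := {w | Good M n θ i w} with hA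
  have hAm : MeasurableSet A := measurableSet_Good M n θ i
  set H : (ℕ → Tor M → ℝ≥0) → (ℕ → Tor M → ℝ≥0) → ℝ≥0∞ := fun w w' =>
    ENNReal.ofReal ((S w + A.indicator (fun w => Z (st M) 1 T w' (mu M (n i) w - q M (n i))) w) ^ 2)
    with hH
  have key : ∀ w, ENNReal.ofReal ((S w + e0 M n θ i w) ^ 2) = H w (shift (n i) w) := by
    intro w
    simp only [hH]
    congr 3
  simp_rw [key]
  rw [← lintegral_indicator hAm, ← lintegral_add_left (hS.pow_const 2).ennreal_ofReal]
  apply lintegral_split_le (t := n i) (H := H)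
  · apply ENNReal.measurable_ofReal.comp
    apply Measurable.pow_const
    apply (hS.comp measurable_fst).add
    have e1 : (fun p : (ℕ → Tor M → ℝ≥0) × (ℕ → Tor M → ℝ≥0) =>
        A.indicator (fun w => Z (st M) 1 T p.2 (mu M (n i) w - q M (n i))) p.1) =
        (Prod.fst ⁻¹' A).indicator (fun p : (ℕ → Tor M → ℝ≥0) × (ℕ → Tor M → ℝ≥0) =>
          Z (st M) 1 T p.2 (mu M (n i) p.1 - q M (n i))) := by
      funext p
      by_cases hp : p.1 ∈ A
      · rw [Set.indicator_of_mem hp, Set.indicator_of_mem (s := Prod.fst ⁻¹' A) hp]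
      · rw [Set.indicator_of_notMem hp, Set.indicator_of_notMem (s := Prod.fst ⁻¹' A) hp]
    have e2 := (measurable_Zmu M T (n i)).indicator (measurable_fst hAm)
    rw [← e1] at e2
    exact e2
  · intro w' x x' hx
    have h1 : (x ∈ A) = (x' ∈ A) := Good_depLt M hm θ x x' hx
    have h2 := mu_depLt M (n i) x x' hx
    have h3 : S x = S x' := hSd x x' hx
    simp only [hH]
    by_cases hxA : x ∈ A
    · rw [Set.indicator_of_mem hxA, Set.indicator_of_mem (h1 ▸ hxA), h2, h3]
    · rw [Set.indicator_of_notMem hxA, Set.indicator_of_notMem (h1 ▸ hxA), h3]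
  · intro w
    simp only [hH]
    by_cases hw : w ∈ A
    · simp only [Set.indicator_of_mem hw]
      apply add_sq_le hP2 h hD hM
      have hpos : 0 < WW M (n i) w := Good.pos M hn0 hθ hw
      simp only [Pi.sub_apply, Finset.sum_sub_distrib, sum_mu M _ _ hpos.ne', sum_q, sub_self]
    · simp only [Set.indicator_of_notMem hw, add_zero, lintegral_const]
      have hprob : IsProbabilityMeasure (env (Tor M) ν) := by unfold env; infer_instance
      simp

/-- the second moment of one error term -/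
lemma e0_sq (hP2 : TargetP2) (h : Wt ν s) (hn0 : n 0 = 0) (hθ : 0 < θ) {i : ℕ}
    (hm : ∀ j ≤ i, n j ≤ n i) (hD : 0 < 1 - s * Rn (n (i + 1) - n i))
    (hM : 2 * (n (i + 1) - n i) < M) :
    ∫⁻ w, ENNReal.ofReal (e0 M n θ i w ^ 2) ∂(env (Tor M) ν) ≤
      ∫⁻ w in {w | Good M n θ i w}, ENNReal.ofReal (s / (1 - s * Rn (n (i + 1) - n i)) *
        En M (n (i + 1) - n i) (mu M (n i) w - q M (n i))) ∂(env (Tor M) ν) := by
  have := step_sq hP2 h hn0 hθ hm hD hM (S := fun _ => 0) measurable_const (fun _ _ _ => rfl)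
  simpa using this

/-- the second moment of the sum of the error terms -/
lemma sum_e0_sq (hP2 : TargetP2) (h : Wt ν s) (hn0 : n 0 = 0) (hθ : 0 < θ) {K : ℕ}
    (hm : ∀ i < K, ∀ j ≤ i, n j ≤ n i) (hn : ∀ i < K, n i ≤ n (i + 1))
    (hD : ∀ i < K, 0 < 1 - s * Rn (n (i + 1) - n i))
    (hM : ∀ i < K, 2 * (n (i + 1) - n i) < M) {V : ℕ → ℝ≥0∞}
    (hV : ∀ i < K, ∫⁻ w in {w | Good M n θ i w}, ENNReal.ofReal
      (s / (1 - s * Rn (n (i + 1) - n i)) *
        En M (n (i + 1) - n i) (mu M (n i) w - q M (n i))) ∂(env (Tor M) ν) ≤ V i) :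
    ∀ k ≤ K, ∫⁻ w, ENNReal.ofReal ((∑ i ∈ Finset.range k, e0 M n θ i w) ^ 2)
      ∂(env (Tor M) ν) ≤ ∑ i ∈ Finset.range k, V i := by
  intro k
  induction k with
  | zero => intro _; simp
  | succ k ih =>
    intro hk
    have hd : ∀ j ≤ k, DepLt (n j) (fun w => ∑ i ∈ Finset.range j, e0 M n θ i w) := by
      intro j hj
      induction j with
      | zero => intro x x' _; simp
      | succ j ihj =>
        intro x x' hx
        simp only [Finset.sum_range_succ]
        have h1 := ihj (by omega) x x' (fun k hk => hx k (lt_of_lt_of_le hk (hn j (by omega))))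
        have h2 := e0_depLt (M := M) (θ := θ) (hm j (by omega)) (hn j (by omega)) x x' hx
        simp only at h1
        rw [h1, h2]
    simp_rw [Finset.sum_range_succ]
    refine (step_sq hP2 h hn0 hθ (hm k (by omega)) (hD k (by omega)) (hM k (by omega))
      (Finset.measurable_sum _ fun i _ => measurable_e0 i) (hd k le_rfl)).trans ?_
    exact add_le_add (ih (by omega)) (hV k (by omega))

end prob

lemma markov {Ω : Type*} [MeasurableSpace Ω] {P : Measure Ω} {f : Ω → ℝ} (hf : Measurable f)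
    {c t : ℝ} (ht : 0 < t) (hc : ∫⁻ w, ENNReal.ofReal (f w) ∂P ≤ ENNReal.ofReal c) :
    P {w | t < f w} ≤ ENNReal.ofReal (c / t) := by
  have h1 : P {w | t < f w} ≤ P {w | ENNReal.ofReal t ≤ ENNReal.ofReal (f w)} := by
    apply measure_mono
    intro w hw
    exact ENNReal.ofReal_le_ofReal (le_of_lt hw)
  refine h1.trans ?_
  have h2 := meas_ge_le_lintegral_div (μ := P) (f := fun w => ENNReal.ofReal (f w))
    hf.ennreal_ofReal.aemeasurable (ε := ENNReal.ofReal t) (by simpa using ht)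
    ENNReal.ofReal_ne_top
  refine h2.trans ?_
  rw [ENNReal.ofReal_div_of_pos ht]
  exact ENNReal.div_le_div_right hc _

theorem targetD5 (hK1 : TargetK1) (hP2 : TargetP2) (hD4 : TargetD4) (hG2 : TargetG2)
    (hG3 : TargetG3) : TargetD5 := by
  intro Λ θ hΛ hθ h2θ h8 hlow δ hδ
  obtain ⟨C4, B4, hC4, hB4, hD4'⟩ := hD4 Λ θ hΛ hθ (by linarith) h8
  obtain ⟨C3, hC3, hG3'⟩ := hG3 Λ hΛ
  obtain ⟨CL, hCL, hL⟩ := hlow
  have hΛ1 : 1 ≤ Λ := by omega
  have hΛ0 : (0 : ℝ) < Λ := by exact_mod_cast (by omega : 0 < Λ)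
  set tQ : ℝ := θ ^ 2 * min 1 (δ / 2) with htQ
  have htQ0 : 0 < tQ := by positivity
  set tL : ℝ := θ * δ / 2 with htL
  have htL0 : 0 < tL := by positivity
  set tS : ℝ := (δ / 4) ^ 2 with htS
  have htS0 : 0 < tS := by positivity
  have h12 : 0 < 1 - 2 * θ := by linarith
  set c0 : ℝ := (CL ^ 2 * C3 + Λ / (1 - 2 * θ) ^ 2) + C4 * C3 / tQ +
    (C4 + Λ) / 2 * C3 / tL + C4 * C3 / tS with hc0
  have hc0pos : 0 < c0 := by positivity
  refine ⟨max B4 (max 1 ((c0 / δ) ^ 4)), le_max_of_le_right (le_max_left _ _), ?_⟩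
  intro M N K _ n ν s hG hW hs hB hev hM
  have hprob := hW.prob
  have hprobE : IsProbabilityMeasure (env (Tor M) ν) := by unfold env; infer_instance
  have hBB4 : B4 ≤ (1 - s * Rn N) / s := (le_max_left _ _).trans hB
  have hB1 : 1 ≤ (1 - s * Rn N) / s := ((le_max_left _ _).trans (le_max_right _ _)).trans hB
  have hBc : (c0 / δ) ^ 4 ≤ (1 - s * Rn N) / s :=
    ((le_max_right _ _).trans (le_max_right _ _)).trans hB
  have hD4i := hD4' M N K n ν s hG hW hs hBB4 hev hM
  have hG3i := hG3' N K n s hG hs hB1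
  set bN : ℝ := (1 - s * Rn N) / s with hbN
  set b : ℕ → ℝ := fun i => (1 - s * Rn (n (i + 1))) / s with hb
  set β : ℝ := bN ^ (-(1 / 4) : ℝ) with hβ
  have hbN0 : 0 < bN := by linarith
  have hβ0 : 0 < β := Real.rpow_pos_of_pos hbN0 _
  -- the grid
  have hn : ∀ i < K, n i ≤ n (i + 1) := fun i hi => hG.mono_succ hΛ1 hi
  have hm : ∀ i < K, ∀ j ≤ i, n j ≤ n i := fun i hi j hj => hG.mono hΛ1 hj hi.le
  have hnN : ∀ i < K, n (i + 1) ≤ N := fun i hi => hG.le_N hΛ1 hi
  have hbi : ∀ i < K, bN ≤ b i := by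
    intro i hi
    simp only [hb, hbN]
    exact div_le_div_of_nonneg_right (D_anti hs.le (hnN i hi)) hs.le
  have hb1 : ∀ i < K, 1 ≤ b i := fun i hi => hB1.trans (hbi i hi)
  have hDi : ∀ i < K, 0 < 1 - s * Rn (n (i + 1)) := by
    intro i hi
    have := hb1 i hi
    simp only [hb] at this
    rw [le_div_iff₀ hs] at this
    linarith
  have hDT : ∀ i < K, 1 - s * Rn (n (i + 1)) ≤ 1 - s * Rn (n (i + 1) - n i) := fun i _ =>
    D_anti hs.le (Nat.sub_le _ _)
  have hDT0 : ∀ i < K, 0 < 1 - s * Rn (n (i + 1) - n i) := fun i hi =>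
    lt_of_lt_of_le (hDi i hi) (hDT i hi)
  have hinvb : ∀ i < K, s / (1 - s * Rn (n (i + 1))) = (b i)⁻¹ := by
    intro i hi
    simp only [hb, inv_div]
  have hrat : ∀ i < K, s / (1 - s * Rn (n (i + 1) - n i)) ≤ (b i)⁻¹ := by
    intro i hi
    rw [← hinvb i hi]
    exact div_le_div_of_nonneg_left hs.le (hDi i hi) (hDT i hi)
  have hMi : ∀ i < K, 2 * (n (i + 1) - n i) < M := by
    intro i hi
    have := hnN i hi
    omega
  have hdiff : ∀ i < K, Rn (n (i + 1)) - Rn (n i) ≤ Λ := by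
    intro i hi
    obtain ⟨g1, g2⟩ := hG2 Λ N K n hΛ hG
    rcases Nat.eq_zero_or_pos i with h0 | h0
    · rw [h0, hG.zero, Rn_zero, sub_zero]; exact g1
    · exact (g2 i h0 hi).2
  -- the second moments of the error terms
  set V : ℕ → ℝ≥0∞ := fun i => ENNReal.ofReal (C4 * b i ^ (-(3 / 2) : ℝ)) with hV
  have hVi : ∀ i < K, ∫⁻ w in {w | Good M n θ i w}, ENNReal.ofReal
      (s / (1 - s * Rn (n (i + 1) - n i)) *
        En M (n (i + 1) - n i) (mu M (n i) w - q M (n i))) ∂(env (Tor M) ν) ≤ V i := by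
    intro i hi
    have hb0 : 0 < b i := lt_of_lt_of_le one_pos (hb1 i hi)
    have hc : 0 ≤ s / (1 - s * Rn (n (i + 1) - n i)) := div_nonneg hs.le (hDT0 i hi).le
    simp_rw [ENNReal.ofReal_mul hc]
    rw [lintegral_const_mul' _ _ ENNReal.ofReal_ne_top]
    calc _ ≤ ENNReal.ofReal ((b i)⁻¹) * ENNReal.ofReal (C4 / √(b i)) :=
          mul_le_mul' (ENNReal.ofReal_le_ofReal (hrat i hi)) (hD4i i hi)
      _ = ENNReal.ofReal ((b i)⁻¹ * (C4 / √(b i))) := (ENNReal.ofReal_mul (by positivity)).symm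
      _ = V i := by
        simp only [hV]
        congr 1
        rw [Real.sqrt_eq_rpow, Real.rpow_neg hb0.le, show (3 / 2 : ℝ) = 1 + 1 / 2 by norm_num,
          Real.rpow_add hb0, Real.rpow_one]
        field_simp
  have hVle : ∀ i < K, C4 * b i ^ (-(3 / 2) : ℝ) ≤ C4 * b i ^ (-(5 / 4) : ℝ) := by
    intro i hi
    apply mul_le_mul_of_nonneg_left _ hC4.le
    exact Real.rpow_le_rpow_of_exponent_le (hb1 i hi) (by norm_num)
  have hsumV : ∑ i ∈ Finset.range K, V i ≤ ENNReal.ofReal (C4 * C3 * β) := by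
    simp only [hV]
    rw [← ENNReal.ofReal_sum_of_nonneg (fun i hi => by
      have hb0 : 0 < b i := lt_of_lt_of_le one_pos (hb1 i (Finset.mem_range.mp hi))
      positivity)]
    apply ENNReal.ofReal_le_ofReal
    calc ∑ i ∈ Finset.range K, C4 * b i ^ (-(3 / 2) : ℝ)
        ≤ ∑ i ∈ Finset.range K, C4 * b i ^ (-(5 / 4) : ℝ) :=
          Finset.sum_le_sum fun i hi => hVle i (Finset.mem_range.mp hi)
      _ = C4 * ∑ i ∈ Finset.range K, b i ^ (-(5 / 4) : ℝ) := by rw [Finset.mul_sum]
      _ ≤ C4 * (C3 * β) := mul_le_mul_of_nonneg_left hG3i hC4.le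
      _ = C4 * C3 * β := by ring
  have hS : ∫⁻ w, ENNReal.ofReal ((∑ i ∈ Finset.range K, e0 M n θ i w) ^ 2)
      ∂(env (Tor M) ν) ≤ ENNReal.ofReal (C4 * C3 * β) :=
    (sum_e0_sq hP2 hW hG.zero hθ hm hn hDT0 hMi hVi K le_rfl).trans hsumV
  have he2 : ∀ i < K, ∫⁻ w, ENNReal.ofReal (e0 M n θ i w ^ 2) ∂(env (Tor M) ν) ≤ V i :=
    fun i hi => (e0_sq hP2 hW hG.zero hθ (hm i hi) (hDT0 i hi) (hMi i hi)).trans (hVi i hi)
  have hQ : ∫⁻ w, ENNReal.ofReal (∑ i ∈ Finset.range K, e0 M n θ i w ^ 2)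
      ∂(env (Tor M) ν) ≤ ENNReal.ofReal (C4 * C3 * β) := by
    simp_rw [fun w => ENNReal.ofReal_sum_of_nonneg (s := Finset.range K)
      (f := fun i => e0 M n θ i w ^ 2) (fun i _ => sq_nonneg _)]
    rw [lintegral_finsetSum _ (fun i _ => ((measurable_e0 i).pow_const 2).ennreal_ofReal)]
    exact (Finset.sum_le_sum fun i hi => he2 i (Finset.mem_range.mp hi)).trans hsumV
  have hX2 : ∀ i < K, ∫⁻ w, ENNReal.ofReal ((Xh M n i w - 1) ^ 2) ∂(env (Tor M) ν) ≤
      ENNReal.ofReal (Λ * (b i)⁻¹) := by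
    intro i hi
    have h1 := Xh_lintegral (M := M) hK1 hP2 hW (hn i hi)
      (by have := hnN i hi; omega) (hDi i hi)
    refine h1.trans (ENNReal.ofReal_le_ofReal ?_)
    rw [hinvb i hi, mul_comm]
    have hb0 : 0 < b i := lt_of_lt_of_le one_pos (hb1 i hi)
    exact mul_le_mul_of_nonneg_right (hdiff i hi) (by positivity)
  have hLs : ∫⁻ w, ENNReal.ofReal (∑ i ∈ Finset.range K, |e0 M n θ i w| * |Xh M n i w - 1|)
      ∂(env (Tor M) ν) ≤ ENNReal.ofReal ((C4 + Λ) / 2 * C3 * β) := by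
    simp_rw [fun w => ENNReal.ofReal_sum_of_nonneg (s := Finset.range K)
      (f := fun i => |e0 M n θ i w| * |Xh M n i w - 1|) (fun i _ => by positivity)]
    have hmL : ∀ i ∈ Finset.range K,
        Measurable (fun w => ENNReal.ofReal (|e0 M n θ i w| * |Xh M n i w - 1|)) := fun i _ =>
      Measurable.ennreal_ofReal ((measurable_e0 (M := M) (n := n) (θ := θ) i).abs.mul
        ((measurable_Xh M n i).sub_const 1).abs)
    rw [lintegral_finsetSum _ hmL]
    have h1 : ∀ i ∈ Finset.range K,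
        ∫⁻ w, ENNReal.ofReal (|e0 M n θ i w| * |Xh M n i w - 1|) ∂(env (Tor M) ν) ≤
        ENNReal.ofReal ((C4 + Λ) / 2 * b i ^ (-(5 / 4) : ℝ)) := by
      intro i hi
      rw [Finset.mem_range] at hi
      have hb0 : 0 < b i := lt_of_lt_of_le one_pos (hb1 i hi)
      set r : ℝ := b i ^ (1 / 4 : ℝ) with hr
      have hr0 : 0 < r := Real.rpow_pos_of_pos hb0 _
      calc ∫⁻ w, ENNReal.ofReal (|e0 M n θ i w| * |Xh M n i w - 1|) ∂(env (Tor M) ν)
          ≤ ∫⁻ w, (ENNReal.ofReal (r / 2) * ENNReal.ofReal (e0 M n θ i w ^ 2) +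
              ENNReal.ofReal (r⁻¹ / 2) * ENNReal.ofReal ((Xh M n i w - 1) ^ 2))
              ∂(env (Tor M) ν) := by
            apply lintegral_mono
            intro w
            simp only
            rw [← ENNReal.ofReal_mul (by positivity), ← ENNReal.ofReal_mul (by positivity),
              ← ENNReal.ofReal_add (by positivity) (by positivity)]
            apply ENNReal.ofReal_le_ofReal
            rw [← sq_abs (e0 M n θ i w), ← sq_abs (Xh M n i w - 1)]
            set x := |e0 M n θ i w|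
            set y := |Xh M n i w - 1|
            have h3 : r / 2 * x ^ 2 + r⁻¹ / 2 * y ^ 2 - x * y = (r * x - y) ^ 2 / (2 * r) := by
              field_simp
              ring
            have h4 : 0 ≤ (r * x - y) ^ 2 / (2 * r) := by positivity
            linarith
        _ = ENNReal.ofReal (r / 2) * ∫⁻ w, ENNReal.ofReal (e0 M n θ i w ^ 2) ∂(env (Tor M) ν) +
              ENNReal.ofReal (r⁻¹ / 2) * ∫⁻ w, ENNReal.ofReal ((Xh M n i w - 1) ^ 2)
                ∂(env (Tor M) ν) := by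
            rw [lintegral_add_left]
            · rw [lintegral_const_mul' _ _ ENNReal.ofReal_ne_top,
                lintegral_const_mul' _ _ ENNReal.ofReal_ne_top]
            · exact ((measurable_e0 i).pow_const 2).ennreal_ofReal.const_mul _
        _ ≤ ENNReal.ofReal (r / 2) * ENNReal.ofReal (C4 * b i ^ (-(3 / 2) : ℝ)) +
              ENNReal.ofReal (r⁻¹ / 2) * ENNReal.ofReal (Λ * (b i)⁻¹) :=
            add_le_add (mul_le_mul' le_rfl (he2 i hi)) (mul_le_mul' le_rfl (hX2 i hi))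
        _ = ENNReal.ofReal ((C4 + Λ) / 2 * b i ^ (-(5 / 4) : ℝ)) := by
            rw [← ENNReal.ofReal_mul (by positivity), ← ENNReal.ofReal_mul (by positivity),
              ← ENNReal.ofReal_add (by positivity) (by positivity)]
            congr 1
            have e1 : r * b i ^ (-(3 / 2) : ℝ) = b i ^ (-(5 / 4) : ℝ) := by
              rw [hr, ← Real.rpow_add hb0]; norm_num
            have e2 : r⁻¹ * (b i)⁻¹ = b i ^ (-(5 / 4) : ℝ) := by
              rw [hr, ← Real.rpow_neg hb0.le, ← Real.rpow_neg_one, ← Real.rpow_add hb0]; norm_num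
            calc r / 2 * (C4 * b i ^ (-(3 / 2) : ℝ)) + r⁻¹ / 2 * (Λ * (b i)⁻¹)
                = C4 / 2 * (r * b i ^ (-(3 / 2) : ℝ)) + Λ / 2 * (r⁻¹ * (b i)⁻¹) := by ring
              _ = _ := by rw [e1, e2]; ring
    refine (Finset.sum_le_sum h1).trans ?_
    rw [← ENNReal.ofReal_sum_of_nonneg (fun i hi => by
      have hb0 : 0 < b i := lt_of_lt_of_le one_pos (hb1 i (Finset.mem_range.mp hi))
      positivity), ← Finset.mul_sum, mul_assoc]
    exact ENNReal.ofReal_le_ofReal (mul_le_mul_of_nonneg_left hG3i (by positivity))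
  -- the lower tails
  have hI : env (Tor M) ν (⋃ i ∈ Finset.range K, {w | Xh M n i w < 2 * θ}) ≤
      ENNReal.ofReal ((CL ^ 2 * C3 + Λ / (1 - 2 * θ) ^ 2) * β) := by
    have h1 : ∀ i ∈ Finset.range K, env (Tor M) ν {w | Xh M n i w < 2 * θ} ≤
        ENNReal.ofReal (CL ^ 2 * b i ^ (-(5 / 4) : ℝ) +
          if i = 0 then Λ / (1 - 2 * θ) ^ 2 * β else 0) := by
      intro i hi
      rw [Finset.mem_range] at hi
      have hb0 : 0 < b i := lt_of_lt_of_le one_pos (hb1 i hi)
      by_cases h0 : i = 0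
      · rw [if_pos h0]
        have h2 : env (Tor M) ν {w | Xh M n i w < 2 * θ} ≤
            env (Tor M) ν {w | ENNReal.ofReal ((1 - 2 * θ) ^ 2) ≤
              ENNReal.ofReal ((Xh M n i w - 1) ^ 2)} := by
          apply measure_mono
          intro w hw
          simp only [Set.mem_ofPred_eq] at hw ⊢
          apply ENNReal.ofReal_le_ofReal
          nlinarith
        refine h2.trans ?_
        refine (meas_ge_le_lintegral_div (μ := env (Tor M) ν)
          (f := fun w => ENNReal.ofReal ((Xh M n i w - 1) ^ 2))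
          (((measurable_Xh M n i).sub_const 1).pow_const 2).ennreal_ofReal.aemeasurable
          (ε := ENNReal.ofReal ((1 - 2 * θ) ^ 2)) (by simpa using h12.ne')
          ENNReal.ofReal_ne_top).trans ?_
        refine (ENNReal.div_le_div_right (hX2 i hi) _).trans ?_
        rw [← ENNReal.ofReal_div_of_pos (by positivity)]
        apply ENNReal.ofReal_le_ofReal
        have h3 : (b i)⁻¹ ≤ β := by
          rw [hβ, ← Real.rpow_neg_one]
          calc b i ^ (-1 : ℝ) ≤ bN ^ (-1 : ℝ) :=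
                Real.rpow_le_rpow_of_nonpos hbN0 (hbi i hi) (by norm_num)
            _ ≤ bN ^ (-(1 / 4) : ℝ) := Real.rpow_le_rpow_of_exponent_le hB1 (by norm_num)
        have h4 : 0 ≤ CL ^ 2 * b i ^ (-(5 / 4) : ℝ) := by positivity
        calc Λ * (b i)⁻¹ / (1 - 2 * θ) ^ 2 = Λ / (1 - 2 * θ) ^ 2 * (b i)⁻¹ := by ring
          _ ≤ Λ / (1 - 2 * θ) ^ 2 * β := mul_le_mul_of_nonneg_left h3 (by positivity)
          _ ≤ _ := by linarith
      · rw [if_neg h0, add_zero]
        have h1i : 1 ≤ i := by omega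
        have hni : 1 ≤ n i := hG.pos hΛ1 h1i hi.le
        have h2 : env (Tor M) ν {w | Xh M n i w < 2 * θ} =
            env (Tor M) ν {w | Z (st M) 1 (n (i + 1) - n i) w (q M (n i)) < 2 * θ} := by
          have e1 : {w : ℕ → Tor M → ℝ≥0 | Xh M n i w < 2 * θ} = shift (n i) ⁻¹'
              {w | Z (st M) 1 (n (i + 1) - n i) w (q M (n i)) < 2 * θ} := rfl
          rw [e1]
          unfold env
          exact measure_shift_preimage _ _
            (measurableSet_lt (measurable_Z_left _ _ _ _) measurable_const)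
        rw [h2]
        have hlen : n (i + 1) - n i ≤ 2 * Λ * n i := by
          have := (hG.ratio i h1i hi).2
          omega
        refine (hL M (n i) (n (i + 1) - n i) ν s hW hni hlen
          (by have := hnN i hi; have := hn i hi; omega) (hDT0 i hi)).trans ?_
        apply ENNReal.ofReal_le_ofReal
        calc (CL * (s / (1 - s * Rn (n (i + 1) - n i)))) ^ 2 ≤ (CL * (b i)⁻¹) ^ 2 := by
              apply pow_le_pow_left₀ (mul_nonneg hCL.le (div_nonneg hs.le (hDT0 i hi).le))
              exact mul_le_mul_of_nonneg_left (hrat i hi) hCL.le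
          _ = CL ^ 2 * b i ^ (-2 : ℝ) := by
              rw [mul_pow, inv_pow, Real.rpow_neg hb0.le]
              norm_num
          _ ≤ CL ^ 2 * b i ^ (-(5 / 4) : ℝ) := by
              apply mul_le_mul_of_nonneg_left _ (by positivity)
              exact Real.rpow_le_rpow_of_exponent_le (hb1 i hi) (by norm_num)
    refine (measure_biUnion_finset_le _ _).trans ((Finset.sum_le_sum h1).trans ?_)
    rw [← ENNReal.ofReal_sum_of_nonneg (fun i hi => by
      have hb0 : 0 < b i := lt_of_lt_of_le one_pos (hb1 i (Finset.mem_range.mp hi))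
      have h2 : 0 ≤ (if i = 0 then Λ / (1 - 2 * θ) ^ 2 * β else 0) := by
        split_ifs
        · positivity
        · exact le_rfl
      positivity), Finset.sum_add_distrib, ← Finset.mul_sum]
    apply ENNReal.ofReal_le_ofReal
    have hK0 : 0 ∈ Finset.range K := Finset.mem_range.mpr (by have := hG.hK; omega)
    rw [Finset.sum_ite_eq' (Finset.range K) 0 (fun _ => Λ / (1 - 2 * θ) ^ 2 * β), if_pos hK0,
      add_mul, mul_assoc]
    exact add_le_add (mul_le_mul_of_nonneg_left hG3i (by positivity)) le_rfl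
  -- the events
  have hpQ := markov (P := env (Tor M) ν)
    (Finset.measurable_sum (Finset.range K) fun i _ => (measurable_e0 (M := M) (n := n) (θ := θ) i).pow_const 2)
    htQ0 hQ
  have hpL := markov (P := env (Tor M) ν)
    (Finset.measurable_sum (Finset.range K) fun i _ => (measurable_e0 (M := M) (n := n) (θ := θ) i).abs.mul
      ((measurable_Xh M n i).sub_const 1).abs) htL0 hLs
  have hpS := markov (P := env (Tor M) ν)
    ((Finset.measurable_sum (Finset.range K) fun i _ => measurable_e0 (M := M) (n := n) (θ := θ) i).pow_const 2)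
    htS0 hS
  have hsub : {w | δ < |Real.log (WW M N w) - ∑ i ∈ Finset.range K, Yt M n θ i w|} ⊆
      (((⋃ i ∈ Finset.range K, {w | Xh M n i w < 2 * θ}) ∪
        {w | tQ < ∑ i ∈ Finset.range K, e0 M n θ i w ^ 2}) ∪
        {w | tL < ∑ i ∈ Finset.range K, |e0 M n θ i w| * |Xh M n i w - 1|}) ∪
        {w | tS < (∑ i ∈ Finset.range K, e0 M n θ i w) ^ 2} := by
    intro w hw
    by_contra hcon
    simp only [Set.mem_union, not_or, Set.mem_iUnion, Set.mem_ofPred_eq, not_exists, not_lt,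
      Finset.mem_range] at hcon
    obtain ⟨⟨⟨h1, h2⟩, h3⟩, h4⟩ := hcon
    have hQθ : ∑ i ∈ Finset.range K, e0 M n θ i w ^ 2 ≤ θ ^ 2 := by
      refine h2.trans ?_
      rw [htQ]
      exact mul_le_of_le_one_right (by positivity) (min_le_left _ _)
    have h5 := det M hG.zero hn hθ (fun i hi => h1 i hi) hQθ
    rw [hG.last] at h5
    have h6 : |∑ i ∈ Finset.range K, e0 M n θ i w| ≤ δ / 4 :=
      abs_le_of_sq_le_sq h4 (by positivity)
    have h7 : (∑ i ∈ Finset.range K, e0 M n θ i w ^ 2) / (2 * θ ^ 2) ≤ δ / 4 := by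
      rw [div_le_iff₀ (by positivity)]
      have h8 : tQ ≤ θ ^ 2 * (δ / 2) := mul_le_mul_of_nonneg_left (min_le_right _ _) (by positivity)
      linarith
    have h8 : (∑ i ∈ Finset.range K, |e0 M n θ i w| * |Xh M n i w - 1|) / (2 * θ) ≤ δ / 4 := by
      rw [div_le_iff₀ (by positivity)]
      rw [htL] at h3
      linarith
    simp only [Set.mem_ofPred_eq] at hw
    linarith
  have hcβ : c0 * β ≤ δ := by
    have h1 : c0 / δ ≤ bN ^ (1 / 4 : ℝ) := by
      calc c0 / δ = ((c0 / δ) ^ 4) ^ (1 / 4 : ℝ) := by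
            rw [← Real.rpow_natCast, ← Real.rpow_mul (by positivity)]
            norm_num
        _ ≤ bN ^ (1 / 4 : ℝ) := Real.rpow_le_rpow (by positivity) hBc (by norm_num)
    rw [hβ, Real.rpow_neg hbN0.le, ← div_eq_mul_inv, div_le_iff₀ (Real.rpow_pos_of_pos hbN0 _)]
    rw [div_le_iff₀ hδ] at h1
    linarith
  refine (measure_mono hsub).trans ?_
  refine (measure_union_le _ _).trans ?_
  refine (add_le_add ((measure_union_le _ _).trans (add_le_add ((measure_union_le _ _).trans
    (add_le_add hI hpQ)) hpL)) hpS).trans ?_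
  rw [← ENNReal.ofReal_add (by positivity) (by positivity),
    ← ENNReal.ofReal_add (by positivity) (by positivity),
    ← ENNReal.ofReal_add (by positivity) (by positivity)]
  apply ENNReal.ofReal_le_ofReal
  refine le_trans (le_of_eq ?_) hcβ
  rw [hc0]
  ring

end Pool.Agent.H22.QC.D5
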