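import Pool.Agent.H22.QC.N1
import Pool.Agent.H95.QC.Targets

/-! Module N of MP_f3a553_pr: nondegeneracy, abstract form (helper22). -/

set_option autoImplicit false

open MeasureTheory ProbabilityTheory Finset

namespace Pool.Agent.H22.QC

universe u

/-- truncation of one variable -/
noncomputable def tr (t x : ℝ) : ℝ := if t < |x| then 0 else x
/-- the rest -/
noncomputable def rt (t x : ℝ) : ℝ := if t < |x| then x else 0

theorem tr_add_rt (t x : ℝ) : tr t x + rt t x = x := by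
  unfold tr rt; split_ifs <;> simp

theorem tr_abs {t : ℝ} (ht : 0 ≤ t) (x : ℝ) : |tr t x| ≤ t := by
  unfold tr
  split_ifs with h
  · simpa using ht
  · exact not_lt.1 h

theorem tr_meas (t : ℝ) : Measurable (tr t) := by
  unfold tr
  exact Measurable.ite (measurableSet_lt measurable_const (by fun_prop)) measurable_const
    measurable_id

theorem rt_meas (t : ℝ) : Measurable (rt t) := by
  unfold rt
  exact Measurable.ite (measurableSet_lt measurable_const (by fun_prop)) measurable_id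
    measurable_const

theorem rt_le (t x : ℝ) : |rt t x| ≤ |x| := by
  unfold rt; split_ifs <;> simp

theorem sq_split (t x : ℝ) : tr t x ^ 2 + rt t x ^ 2 = x ^ 2 := by
  unfold tr rt; split_ifs <;> simp

section
variable {Ω : Type u} [MeasurableSpace Ω] {P : Measure Ω} [IsProbabilityMeasure P]

omit [IsProbabilityMeasure P] in
theorem rt_int {X : Ω → ℝ} (hX : Measurable X) (t : ℝ) :
    ∫ ω, rt t (X ω) ^ 2 ∂P = ∫ ω in {ω | t < |X ω|}, X ω ^ 2 ∂P := by
  have hms : MeasurableSet {ω | t < |X ω|} := measurableSet_lt measurable_const (by fun_prop)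
  rw [← integral_indicator hms]
  congr 1
  ext ω
  unfold rt
  by_cases h : t < |X ω|
  · rw [if_pos h, Set.indicator_of_mem (by exact h)]
  · rw [if_neg h, Set.indicator_of_notMem (by exact h)]
    simp

/-- one variable: centred truncation -/
theorem one_var {X : Ω → ℝ} (hX : Measurable X) (hL : MemLp X 2 P) (h0 : ∫ ω, X ω ∂P = 0) {t : ℝ}
    (ht : 0 ≤ t) : ∃ m : ℝ, |m| ≤ t ∧ ∫ ω, (tr t (X ω) + m) ∂P = 0 ∧ ∫ ω, (rt t (X ω) - m) ∂P = 0 ∧
      MemLp (fun ω => rt t (X ω) - m) 2 P ∧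
      ∫ ω, (tr t (X ω) + m) ^ 2 ∂P ≤ ∫ ω, X ω ^ 2 ∂P ∧
      ∫ ω, X ω ^ 2 ∂P - 2 * ∫ ω in {ω | t < |X ω|}, X ω ^ 2 ∂P ≤ ∫ ω, (tr t (X ω) + m) ^ 2 ∂P ∧
      ∫ ω, (rt t (X ω) - m) ^ 2 ∂P ≤ ∫ ω in {ω | t < |X ω|}, X ω ^ 2 ∂P := by
  have hrtL : MemLp (fun ω => rt t (X ω)) 2 P :=
    hL.mono ((rt_meas t).comp hX).aestronglyMeasurable
      (Filter.Eventually.of_forall fun ω => rt_le t (X ω))
  have htrI : Integrable (fun ω => tr t (X ω)) P :=
    int_bdd ((tr_meas t).comp hX) (fun ω => tr_abs ht (X ω))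
  have hrtI : Integrable (fun ω => rt t (X ω)) P := hrtL.integrable one_le_two
  set m := ∫ ω, rt t (X ω) ∂P with hm
  have hsum : ∫ ω, tr t (X ω) ∂P + m = 0 := by
    rw [hm, ← integral_add htrI hrtI]
    simp_rw [tr_add_rt]
    exact h0
  have hmt : |m| ≤ t := by
    have e : m = -∫ ω, tr t (X ω) ∂P := by linarith
    rw [e, abs_neg]
    have := norm_integral_le_of_norm_le_const (μ := P) (f := fun ω => tr t (X ω)) (C := t)
      (Filter.Eventually.of_forall fun ω => tr_abs ht (X ω))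
    simpa using this
  have htr2I : Integrable (fun ω => tr t (X ω) ^ 2) P := by
    apply int_bdd (((tr_meas t).comp hX).pow_const 2) (B := t ^ 2)
    intro ω
    simp only [Function.comp_apply]
    rw [abs_pow]
    exact pow_le_pow_left₀ (abs_nonneg _) (tr_abs ht _) 2
  have hrt2I : Integrable (fun ω => rt t (X ω) ^ 2) P := hrtL.integrable_sq
  have hX2 : ∫ ω, tr t (X ω) ^ 2 ∂P + ∫ ω, rt t (X ω) ^ 2 ∂P = ∫ ω, X ω ^ 2 ∂P := by
    rw [← integral_add htr2I hrt2I]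
    simp_rw [sq_split]
  have hr := rt_int (P := P) hX t
  have htr : ∫ ω, (tr t (X ω) + m) ^ 2 ∂P = ∫ ω, tr t (X ω) ^ 2 ∂P - m ^ 2 := by
    have e : ∀ ω, (tr t (X ω) + m) ^ 2 = tr t (X ω) ^ 2 + (2 * m * tr t (X ω) + m ^ 2) := by
      intro ω; ring
    simp_rw [e]
    have i1 : Integrable (fun ω => 2 * m * tr t (X ω) + m ^ 2) P :=
      (htrI.const_mul _).add (integrable_const _)
    rw [integral_add htr2I i1, integral_add (htrI.const_mul _) (integrable_const _),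
      integral_const_mul, integral_const, probReal_univ, one_smul]
    have e2 : ∫ ω, tr t (X ω) ∂P = -m := by linarith
    rw [e2]
    ring
  have hrt : ∫ ω, (rt t (X ω) - m) ^ 2 ∂P = ∫ ω, rt t (X ω) ^ 2 ∂P - m ^ 2 := by
    have e : ∀ ω, (rt t (X ω) - m) ^ 2 = rt t (X ω) ^ 2 + ((-2 * m) * rt t (X ω) + m ^ 2) := by
      intro ω; ring
    simp_rw [e]
    have i1 : Integrable (fun ω => (-2 * m) * rt t (X ω) + m ^ 2) P :=
      (hrtI.const_mul _).add (integrable_const _)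
    rw [integral_add hrt2I i1, integral_add (hrtI.const_mul _) (integrable_const _),
      integral_const_mul, integral_const, probReal_univ, one_smul, ← hm]
    ring
  have hrt0 : 0 ≤ ∫ ω, (rt t (X ω) - m) ^ 2 ∂P := integral_nonneg fun ω => sq_nonneg _
  have hr0 : 0 ≤ ∫ ω, rt t (X ω) ^ 2 ∂P := integral_nonneg fun ω => sq_nonneg _
  refine ⟨m, hmt, ?_, ?_, ?_, ?_, ?_, ?_⟩
  · rw [integral_add htrI (integrable_const _), integral_const, probReal_univ, one_smul]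
    exact hsum
  · rw [integral_sub hrtI (integrable_const _), integral_const, probReal_univ, one_smul, ← hm,
      sub_self]
  · exact hrtL.sub (memLp_const m)
  · rw [htr]; nlinarith [sq_nonneg m]
  · rw [htr, ← hr]; linarith
  · rw [hrt, ← hr]; nlinarith [sq_nonneg m]

/-- decomposition of the sum -/
theorem decomp {J : ℕ} {X : Fin J → Ω → ℝ} {b c₁ c₂ ε : ℝ} (hb : 0 < b)
    (hXm : ∀ a, Measurable (X a)) (hXi : iIndepFun X P) (hXL : ∀ a, MemLp (X a) 2 P)
    (hX0 : ∀ a, ∫ ω, X a ω ∂P = 0) (hlow : c₁ / b ≤ ∑ a, ∫ ω, X a ω ^ 2 ∂P)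
    (hup : ∑ a, ∫ ω, X a ω ^ 2 ∂P ≤ c₂ / b)
    (htr : ∑ a, ∫ ω in {ω | 1 / √b < |X a ω|}, X a ω ^ 2 ∂P ≤ ε / b) :
    ∃ S D : Ω → ℝ, Measurable S ∧ Measurable D ∧ (∀ ω, ∑ a, X a ω = S ω + D ω) ∧
      (∃ B, ∀ ω, |S ω| ≤ B) ∧ MemLp D 2 P ∧ (c₁ - 2 * ε) / b ≤ ∫ ω, S ω ^ 2 ∂P ∧
      ∫ ω, S ω ^ 4 ∂P ≤ (3 * c₂ ^ 2 + 4 * c₂) / b ^ 2 ∧ ∫ ω, D ω ^ 2 ∂P ≤ ε / b := by
  set t := 1 / √b with ht
  have ht0 : 0 ≤ t := by positivity
  have ht2 : t ^ 2 = 1 / b := by rw [ht, div_pow, one_pow, Real.sq_sqrt hb.le]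
  choose m hmt hZ0 hV0 hVL hZle hZge hVle using fun a => one_var (hXm a) (hXL a) (hX0 a) ht0
  set Z : Fin J → Ω → ℝ := fun a ω => tr t (X a ω) + m a with hZ
  set V : Fin J → Ω → ℝ := fun a ω => rt t (X a ω) - m a with hV
  have hZm : ∀ a, Measurable (Z a) := fun a => ((tr_meas t).comp (hXm a)).add_const _
  have hVm : ∀ a, Measurable (V a) := fun a => ((rt_meas t).comp (hXm a)).sub_const _
  have hZi : iIndepFun Z P :=
    hXi.comp (fun a x => tr t x + m a) (fun a => (tr_meas t).add_const _)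
  have hVi : iIndepFun V P :=
    hXi.comp (fun a x => rt t x - m a) (fun a => (rt_meas t).sub_const _)
  have hZb : ∀ a ω, |Z a ω| ≤ 2 * t := by
    intro a ω
    calc |tr t (X a ω) + m a| ≤ |tr t (X a ω)| + |m a| := abs_add_le _ _
      _ ≤ t + t := add_le_add (tr_abs ht0 _) (hmt a)
      _ = 2 * t := by ring
  obtain ⟨hS2, hS4⟩ := moments hZm hZi hZb hZ0 Finset.univ
  have hD2 := second_moment hVi hVL hV0 Finset.univ
  have hc2 : 0 ≤ c₂ / b := le_trans (Finset.sum_nonneg fun a _ => integral_nonneg fun ω => sq_nonneg _) hup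
  refine ⟨fun ω => ∑ a, Z a ω, fun ω => ∑ a, V a ω, Finset.measurable_fun_sum _ fun i _ => hZm i,
    Finset.measurable_fun_sum _ fun i _ => hVm i, ?_, ⟨J * (2 * t), ?_⟩,
    memLp_finsetSum _ fun i _ => hVL i, ?_, ?_, ?_⟩
  · intro ω
    rw [← Finset.sum_add_distrib]
    apply Finset.sum_congr rfl
    intro a _
    simp only [hZ, hV]
    have := tr_add_rt t (X a ω)
    linarith
  · intro ω
    calc |∑ a, Z a ω| ≤ ∑ a, |Z a ω| := Finset.abs_sum_le_sum_abs _ _
      _ ≤ ∑ a : Fin J, 2 * t := Finset.sum_le_sum fun a _ => hZb a ω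
      _ = J * (2 * t) := by rw [Finset.sum_const, nsmul_eq_mul]; simp
  · rw [hS2]
    have h1 := Finset.sum_le_sum fun a (_ : a ∈ (Finset.univ : Finset (Fin J))) => hZge a
    rw [Finset.sum_sub_distrib, ← Finset.mul_sum] at h1
    have e : (c₁ - 2 * ε) / b = c₁ / b - 2 * (ε / b) := by ring
    rw [e]
    linarith
  · refine hS4.trans ?_
    have h1 : ∑ a, ∫ ω, Z a ω ^ 2 ∂P ≤ c₂ / b :=
      (Finset.sum_le_sum fun a _ => hZle a).trans hup
    have h1' : 0 ≤ ∑ a, ∫ ω, Z a ω ^ 2 ∂P :=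
      Finset.sum_nonneg fun a _ => integral_nonneg fun ω => sq_nonneg _
    have h2 : ∑ a, ∫ ω, Z a ω ^ 4 ∂P ≤ (4 / b) * (c₂ / b) := by
      calc ∑ a, ∫ ω, Z a ω ^ 4 ∂P ≤ ∑ a, (4 / b) * ∫ ω, Z a ω ^ 2 ∂P := by
            apply Finset.sum_le_sum
            intro a _
            rw [← integral_const_mul]
            apply integral_mono
            · apply int_bdd ((hZm a).pow_const 4) (B := (2 * t) ^ 4)
              intro ω
              rw [abs_pow]
              exact pow_le_pow_left₀ (abs_nonneg _) (hZb a ω) 4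
            · apply Integrable.const_mul
              apply int_bdd ((hZm a).pow_const 2) (B := (2 * t) ^ 2)
              intro ω
              rw [abs_pow]
              exact pow_le_pow_left₀ (abs_nonneg _) (hZb a ω) 2
            · intro ω
              have h3 : Z a ω ^ 2 ≤ 4 / b := by
                have h4 := pow_le_pow_left₀ (abs_nonneg _) (hZb a ω) 2
                rw [sq_abs, mul_pow, ht2] at h4
                have e : (2 : ℝ) ^ 2 * (1 / b) = 4 / b := by ring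
                rwa [e] at h4
              have e : Z a ω ^ 4 = Z a ω ^ 2 * Z a ω ^ 2 := by ring
              simp only
              rw [e]
              exact mul_le_mul_of_nonneg_right h3 (sq_nonneg _)
        _ = (4 / b) * ∑ a, ∫ ω, Z a ω ^ 2 ∂P := by rw [Finset.mul_sum]
        _ ≤ (4 / b) * (c₂ / b) := mul_le_mul_of_nonneg_left h1 (by positivity)
    have h5 : 3 * (∑ a, ∫ ω, Z a ω ^ 2 ∂P) ^ 2 ≤ 3 * (c₂ / b) ^ 2 :=
      mul_le_mul_of_nonneg_left (pow_le_pow_left₀ h1' h1 2) (by norm_num)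
    have e : (3 * c₂ ^ 2 + 4 * c₂) / b ^ 2 = 3 * (c₂ / b) ^ 2 + (4 / b) * (c₂ / b) := by
      field_simp
    rw [e]
    linarith
  · rw [hD2]
    exact (Finset.sum_le_sum fun a _ => hVle a).trans htr

/-- the final estimate -/
theorem final {S D R : Ω → ℝ} {b c₁ c₂ c₃ ε M θ : ℝ} (hb1 : 1 ≤ b) (hM : 0 < M) (hMb : M ≤ b)
    (hθ : 0 < θ) (hθ1 : θ < 1) (hc2 : 0 ≤ c₂)
    (hSm : Measurable S) (hDm : Measurable D) (hRm : Measurable R) (hSb : ∃ B, ∀ ω, |S ω| ≤ B)
    (hDL : MemLp D 2 P) (hRL : MemLp R 2 P) (hS2 : (c₁ - 2 * ε) / b ≤ ∫ ω, S ω ^ 2 ∂P)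
    (hS4 : ∫ ω, S ω ^ 4 ∂P ≤ (3 * c₂ ^ 2 + 4 * c₂) / b ^ 2) (hD2 : ∫ ω, D ω ^ 2 ∂P ≤ ε / b)
    (hR2 : ∫ ω, R ω ^ 2 ∂P ≤ ε / b) (hT2 : ∫ ω, (S ω + D ω) ^ 2 ∂P ≤ c₂ / b)
    (hmean : ∫ ω, (S ω + D ω + R ω) ∂P = 0)
    (hP : P.real {ω | 1 + (S ω + D ω) + R ω < θ} ≤ c₃ / b ^ 2) :
    (c₁ / 2 - 5 * ε - (3 * c₂ ^ 2 + 4 * c₂ + 4 * (c₂ + ε) ^ 2) / M) / b - 4 * M * c₃ / b ^ 3 ≤
      4 * variance (fun ω => if θ ≤ 1 + (S ω + D ω) + R ω then
        Real.log (1 + (S ω + D ω) + R ω) else 0) P := by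
  have hb : 0 < b := by linarith
  set κ := √(M / b) with hκ
  have hκ0 : 0 < κ := Real.sqrt_pos.2 (by positivity)
  have hκ2 : κ ^ 2 = M / b := Real.sq_sqrt (by positivity)
  have hκ1 : κ ≤ 1 := by
    rw [hκ, Real.sqrt_le_one]
    rw [div_le_one hb]; exact hMb
  obtain ⟨B, hB⟩ := hSb
  have hSL : MemLp S 2 P := MemLp.of_bound hSm.aestronglyMeasurable B
    (Filter.Eventually.of_forall hB)
  set T : Ω → ℝ := fun ω => S ω + D ω + R ω with hT
  have hTm : Measurable T := (hSm.add hDm).add hRm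
  have hTL : MemLp T 2 P := (hSL.add hDL).add hRL
  have hTI : Integrable T P := hTL.integrable one_le_two
  have hT2I : Integrable (fun ω => T ω ^ 2) P := hTL.integrable_sq
  set φ : Ω → ℝ := fun ω => clip κ (T ω) with hφ
  have hcm : Measurable (clip κ) := by unfold clip; fun_prop
  have hφm : Measurable φ := hcm.comp hTm
  have hφb : ∀ ω, |φ ω| ≤ κ := fun ω => clip_abs hκ0.le _
  have hφI : Integrable φ P := int_bdd hφm hφb
  have hφ2I : Integrable (fun ω => φ ω ^ 2) P := by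
    apply int_bdd (hφm.pow_const 2) (B := κ ^ 2)
    intro ω; rw [abs_pow]; exact pow_le_pow_left₀ (abs_nonneg _) (hφb ω) 2
  -- second moment of T
  have hET2 : ∫ ω, T ω ^ 2 ∂P ≤ 2 * (c₂ + ε) / b := by
    have h1 : ∀ ω, T ω ^ 2 ≤ 2 * (S ω + D ω) ^ 2 + 2 * R ω ^ 2 := by
      intro ω; simp only [hT]; nlinarith [sq_nonneg (S ω + D ω - R ω)]
    have i1 : Integrable (fun ω => 2 * (S ω + D ω) ^ 2) P := ((hSL.add hDL).integrable_sq).const_mul 2
    have i2 : Integrable (fun ω => 2 * R ω ^ 2) P := (hRL.integrable_sq).const_mul 2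
    calc ∫ ω, T ω ^ 2 ∂P ≤ ∫ ω, (2 * (S ω + D ω) ^ 2 + 2 * R ω ^ 2) ∂P :=
          integral_mono hT2I (i1.add i2) h1
      _ = 2 * ∫ ω, (S ω + D ω) ^ 2 ∂P + 2 * ∫ ω, R ω ^ 2 ∂P := by
          rw [integral_add i1 i2, integral_const_mul, integral_const_mul]
      _ ≤ 2 * (c₂ / b) + 2 * (ε / b) := by linarith
      _ = 2 * (c₂ + ε) / b := by ring
  -- lower bound for the second moment of φ
  have hφ2 : (c₁ - 2 * ε - (3 * c₂ ^ 2 + 4 * c₂) / M) / (2 * b) - 4 * ε / b ≤ ∫ ω, φ ω ^ 2 ∂P := by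
    have iS2 : Integrable (fun ω => S ω ^ 2) P := hSL.integrable_sq
    have iS4 : Integrable (fun ω => S ω ^ 4) P := by
      apply int_bdd (hSm.pow_const 4) (B := B ^ 4)
      intro ω; rw [abs_pow]; exact pow_le_pow_left₀ (abs_nonneg _) (hB ω) 4
    have iD2 : Integrable (fun ω => D ω ^ 2) P := hDL.integrable_sq
    have iR2 : Integrable (fun ω => R ω ^ 2) P := hRL.integrable_sq
    have h1 : ∀ ω, S ω ^ 2 - S ω ^ 4 / κ ^ 2 ≤ 2 * φ ω ^ 2 + (4 * D ω ^ 2 + 4 * R ω ^ 2) := by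
      intro ω
      refine (clip_sq hκ0 (S ω)).trans ?_
      have h2 := clip_lip κ (S ω) (T ω)
      have h3 : |S ω - T ω| = |D ω + R ω| := by
        simp only [hT]
        rw [show S ω - (S ω + D ω + R ω) = -(D ω + R ω) by ring, abs_neg]
      rw [h3] at h2
      have h4 : (clip κ (S ω) - φ ω) ^ 2 ≤ (D ω + R ω) ^ 2 := by
        rw [← sq_abs, ← sq_abs (D ω + R ω)]
        exact pow_le_pow_left₀ (abs_nonneg _) h2 2
      nlinarith [sq_nonneg (clip κ (S ω) - 2 * φ ω), sq_nonneg (D ω - R ω)]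
    have i1 : Integrable (fun ω => S ω ^ 2 - S ω ^ 4 / κ ^ 2) P := iS2.sub (iS4.div_const _)
    have i3 : Integrable (fun ω => 4 * D ω ^ 2 + 4 * R ω ^ 2) P :=
      (iD2.const_mul 4).add (iR2.const_mul 4)
    have i2 : Integrable (fun ω => 2 * φ ω ^ 2 + (4 * D ω ^ 2 + 4 * R ω ^ 2)) P :=
      (hφ2I.const_mul 2).add i3
    have h5 := integral_mono i1 i2 h1
    rw [integral_sub iS2 (iS4.div_const _), integral_div, integral_add (hφ2I.const_mul 2) i3,
      integral_add (iD2.const_mul 4) (iR2.const_mul 4), integral_const_mul, integral_const_mul,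
      integral_const_mul, hκ2] at h5
    have h6 : (∫ ω, S ω ^ 4 ∂P) / (M / b) ≤ (3 * c₂ ^ 2 + 4 * c₂) / M / b := by
      calc (∫ ω, S ω ^ 4 ∂P) / (M / b) ≤ ((3 * c₂ ^ 2 + 4 * c₂) / b ^ 2) / (M / b) :=
            div_le_div_of_nonneg_right hS4 (by positivity)
        _ = (3 * c₂ ^ 2 + 4 * c₂) / M / b := by field_simp
    have e1 : (c₁ - 2 * ε - (3 * c₂ ^ 2 + 4 * c₂) / M) / (2 * b) - 4 * ε / b =
        ((c₁ - 2 * ε) / b - (3 * c₂ ^ 2 + 4 * c₂) / M / b) / 2 - 4 * (ε / b) := by ring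
    rw [e1]
    linarith
  -- the mean of φ
  have hmφ : (∫ ω, φ ω ∂P) ^ 2 ≤ 4 * (c₂ + ε) ^ 2 / (M * b) := by
    have h1 : |∫ ω, φ ω ∂P| ≤ 2 * (c₂ + ε) / b / κ := by
      have e : ∫ ω, φ ω ∂P = ∫ ω, (φ ω - T ω) ∂P := by
        rw [integral_sub hφI hTI, hmean, sub_zero]
      rw [e]
      calc |∫ ω, (φ ω - T ω) ∂P| ≤ ∫ ω, |φ ω - T ω| ∂P := abs_integral_le_integral_abs
        _ ≤ ∫ ω, T ω ^ 2 / κ ∂P :=
            integral_mono (hφI.sub hTI).abs (hT2I.div_const _) fun ω => clip_diff hκ0 (T ω)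
        _ = (∫ ω, T ω ^ 2 ∂P) / κ := integral_div _ _
        _ ≤ _ := div_le_div_of_nonneg_right hET2 hκ0.le
    rw [← sq_abs]
    calc |∫ ω, φ ω ∂P| ^ 2 ≤ (2 * (c₂ + ε) / b / κ) ^ 2 := pow_le_pow_left₀ (abs_nonneg _) h1 2
      _ = 4 * (c₂ + ε) ^ 2 / b ^ 2 / κ ^ 2 := by ring
      _ = 4 * (c₂ + ε) ^ 2 / (M * b) := by rw [hκ2]; field_simp
  -- the logarithm
  set L : Ω → ℝ := fun ω => if θ ≤ 1 + (S ω + D ω) + R ω then
        Real.log (1 + (S ω + D ω) + R ω) else 0 with hL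
  have eY : ∀ ω, 1 + (S ω + D ω) + R ω = 1 + T ω := by intro ω; simp only [hT]; ring
  have hLm : Measurable L := by
    rw [hL]
    apply Measurable.ite _ _ measurable_const
    · exact measurableSet_le measurable_const ((measurable_const.add (hSm.add hDm)).add hRm)
    · exact Real.measurable_log.comp ((measurable_const.add (hSm.add hDm)).add hRm)
  have hLb : ∀ ω, |L ω| ≤ |Real.log θ| + |T ω| := by
    intro ω
    simp only [hL]
    rw [eY]
    split_ifs with h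
    · rcases le_total 1 (1 + T ω) with h1 | h1
      · have h2 := Real.log_le_sub_one_of_pos (show 0 < 1 + T ω by linarith)
        have h3 := Real.log_nonneg h1
        rw [abs_of_nonneg h3]
        have h4 := abs_nonneg (Real.log θ)
        have h5 := le_abs_self (T ω)
        linarith
      · have h2 : Real.log (1 + T ω) ≤ 0 := Real.log_nonpos (by linarith) h1
        have h3 : Real.log θ ≤ Real.log (1 + T ω) := Real.log_le_log hθ h
        rw [abs_of_nonpos h2, abs_of_nonpos (by linarith : Real.log θ ≤ 0)]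
        have h5 := abs_nonneg (T ω)
        linarith
    · rw [abs_zero]; positivity
  have hLL : MemLp L 2 P := by
    have h0 : MemLp (fun ω => ‖T ω‖) 2 P := hTL.norm
    have h1 : MemLp (fun ω => |Real.log θ| + ‖T ω‖) 2 P := MemLp.add (memLp_const _) h0
    apply h1.mono hLm.aestronglyMeasurable
    refine Filter.Eventually.of_forall fun ω => ?_
    rw [Real.norm_eq_abs, Real.norm_eq_abs, Real.norm_eq_abs,
      abs_of_nonneg (by positivity : 0 ≤ |Real.log θ| + |T ω|)]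
    exact hLb ω
  set m := ∫ ω, L ω ∂P with hm
  have hvar : variance L P = ∫ ω, (L ω - m) ^ 2 ∂P := variance_eq_integral hLm.aemeasurable
  set A : Set Ω := {ω | 1 + (S ω + D ω) + R ω < θ} with hA
  have hAm : MeasurableSet A :=
    measurableSet_lt ((measurable_const.add (hSm.add hDm)).add hRm) measurable_const
  set c := clip κ (Real.exp m - 1) with hc
  have hcb : |c| ≤ κ := clip_abs hκ0.le _
  have hpt : ∀ ω, (φ ω - c) ^ 2 ≤ 4 * (L ω - m) ^ 2 + 4 * κ ^ 2 * A.indicator (fun _ => (1 : ℝ)) ω := by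
    intro ω
    by_cases h : ω ∈ A
    · rw [Set.indicator_of_mem h]
      have h1 : |φ ω - c| ≤ 2 * κ := by
        have := abs_sub (φ ω) c
        have := hφb ω
        linarith
      have h2 : (φ ω - c) ^ 2 ≤ (2 * κ) ^ 2 := by
        rw [← sq_abs]; exact pow_le_pow_left₀ (abs_nonneg _) h1 2
      nlinarith [sq_nonneg (L ω - m)]
    · rw [Set.indicator_of_notMem h, mul_zero, add_zero]
      have h1 : θ ≤ 1 + (S ω + D ω) + R ω := by
        rw [hA] at h; exact not_lt.1 h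
      have h2 : L ω = Real.log (1 + T ω) := by
        simp only [hL]; rw [if_pos h1, eY]
      have h3 : φ ω = clip κ (Real.exp (L ω) - 1) := by
        rw [h2, Real.exp_log (by rw [← eY]; linarith)]
        simp only [hφ]
        congr 1
        ring
      rw [h3, hc]
      have h4 := clip_exp hκ1 (L ω) m
      rw [← sq_abs]
      calc _ ≤ (2 * |L ω - m|) ^ 2 := pow_le_pow_left₀ (abs_nonneg _) h4 2
        _ = 4 * (L ω - m) ^ 2 := by rw [mul_pow, sq_abs]; norm_num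
  have iLm : Integrable (fun ω => (L ω - m) ^ 2) P := (hLL.sub (memLp_const m)).integrable_sq
  have iA : Integrable (A.indicator (fun _ => (1 : ℝ))) P := (integrable_const _).indicator hAm
  have iφc : Integrable (fun ω => (φ ω - c) ^ 2) P := by
    apply int_bdd ((hφm.sub_const c).pow_const 2) (B := (2 * κ) ^ 2)
    intro ω
    rw [abs_pow]
    apply pow_le_pow_left₀ (abs_nonneg _)
    have := abs_sub (φ ω) c
    have := hφb ω
    linarith
  have hmain : ∫ ω, (φ ω - c) ^ 2 ∂P ≤ 4 * variance L P + 4 * κ ^ 2 * P.real A := by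
    calc ∫ ω, (φ ω - c) ^ 2 ∂P
        ≤ ∫ ω, (4 * (L ω - m) ^ 2 + 4 * κ ^ 2 * A.indicator (fun _ => (1 : ℝ)) ω) ∂P :=
          integral_mono iφc ((iLm.const_mul 4).add (iA.const_mul _)) hpt
      _ = 4 * variance L P + 4 * κ ^ 2 * P.real A := by
          rw [integral_add (iLm.const_mul 4) (iA.const_mul _), integral_const_mul,
            integral_const_mul, hvar, integral_indicator_const _ hAm]
          simp
  have hφc : ∫ ω, φ ω ^ 2 ∂P - (∫ ω, φ ω ∂P) ^ 2 ≤ ∫ ω, (φ ω - c) ^ 2 ∂P := by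
    have e : ∀ ω, (φ ω - c) ^ 2 = φ ω ^ 2 + ((-2 * c) * φ ω + c ^ 2) := by intro ω; ring
    simp_rw [e]
    have i1 : Integrable (fun ω => (-2 * c) * φ ω + c ^ 2) P :=
      (hφI.const_mul _).add (integrable_const _)
    rw [integral_add hφ2I i1, integral_add (hφI.const_mul _) (integrable_const _),
      integral_const_mul, integral_const, probReal_univ, one_smul]
    nlinarith [sq_nonneg ((∫ ω, φ ω ∂P) - c)]
  have hPA : 4 * κ ^ 2 * P.real A ≤ 4 * M * c₃ / b ^ 3 := by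
    calc 4 * κ ^ 2 * P.real A ≤ 4 * κ ^ 2 * (c₃ / b ^ 2) :=
          mul_le_mul_of_nonneg_left hP (by positivity)
      _ = 4 * M * c₃ / b ^ 3 := by rw [hκ2]; field_simp
  have e2 : (c₁ / 2 - 5 * ε - (3 * c₂ ^ 2 + 4 * c₂ + 4 * (c₂ + ε) ^ 2) / M) / b ≤
      ((c₁ - 2 * ε - (3 * c₂ ^ 2 + 4 * c₂) / M) / (2 * b) - 4 * ε / b) -
        4 * (c₂ + ε) ^ 2 / (M * b) := by
    have e3 : ((c₁ - 2 * ε - (3 * c₂ ^ 2 + 4 * c₂) / M) / (2 * b) - 4 * ε / b) -
        4 * (c₂ + ε) ^ 2 / (M * b) -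
        (c₁ / 2 - 5 * ε - (3 * c₂ ^ 2 + 4 * c₂ + 4 * (c₂ + ε) ^ 2) / M) / b =
        (3 * c₂ ^ 2 + 4 * c₂) / (2 * M * b) := by
      field_simp
      ring
    have e4 : 0 ≤ (3 * c₂ ^ 2 + 4 * c₂) / (2 * M * b) := by positivity
    linarith
  linarith

end

theorem targetN : Pool.Agent.H95.QC.TargetN.{u} := by
  intro c₁ c₂ c₃ θ h1 h2 h3 hθ hθ1
  set ε := min (c₁ / 40) 1 with hε
  have hε0 : 0 < ε := lt_min (by positivity) one_pos
  have hε1 : ε ≤ c₁ / 40 := min_le_left _ _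
  have hε2 : ε ≤ 1 := min_le_right _ _
  set Q := 3 * c₂ ^ 2 + 4 * c₂ + 4 * (c₂ + ε) ^ 2 with hQ
  have hQ0 : 0 < Q := by positivity
  set M := 8 * Q / c₁ with hM
  have hM0 : 0 < M := by positivity
  refine ⟨ε, M + 32 * M * c₃ / c₁ + 1, c₁ / 32, hε0, by positivity, by positivity, ?_⟩
  intro Ω _ P _ J X R b hb hXm hXi hXL hX0 hlow hup htr hRm hRL hR2 hR0 hP
  have hq : 0 < 32 * M * c₃ / c₁ := by positivity
  have hb1 : 1 ≤ b := by linarith
  have hb0 : 0 < b := by linarith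
  have hMb : M ≤ b := by linarith
  have hb3 : 32 * M * c₃ / c₁ ≤ b := by linarith
  obtain ⟨S, D, hSm, hDm, hsum, hSb, hDL, hS2, hS4, hD2⟩ :=
    decomp hb0 hXm hXi hXL hX0 hlow hup htr
  have hT2 : ∫ ω, (S ω + D ω) ^ 2 ∂P ≤ c₂ / b := by
    have h := second_moment hXi hXL hX0 Finset.univ
    simp_rw [hsum] at h
    rw [h]; exact hup
  have hmean : ∫ ω, (S ω + D ω + R ω) ∂P = 0 := by
    have e : ∀ ω, S ω + D ω + R ω = ∑ a, X a ω + R ω := by intro ω; rw [hsum]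
    simp_rw [e]
    have iX : Integrable (fun ω => ∑ a, X a ω) P :=
      integrable_finsetSum _ fun a _ => (hXL a).integrable one_le_two
    rw [integral_add iX (hRL.integrable one_le_two), hR0, add_zero,
      integral_finsetSum _ fun a _ => (hXL a).integrable one_le_two]
    exact Finset.sum_eq_zero fun a _ => hX0 a
  simp_rw [hsum] at hP ⊢
  have h := final (P := P) (c₁ := c₁) (c₂ := c₂) (c₃ := c₃) (ε := ε) (M := M) hb1 hM0 hMb hθ hθ1
    h2.le hSm hDm hRm hSb hDL hRL hS2 hS4 hD2 hR2 hT2 hmean hP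
  have hQM : Q / M = c₁ / 8 := by
    rw [hM]; field_simp
  rw [← hQ, hQM] at h
  have h5 : 4 * M * c₃ / b ^ 3 ≤ c₁ / 8 / b := by
    have h6 : 4 * M * c₃ / b ^ 3 = (4 * M * c₃ / b ^ 2) / b := by field_simp
    rw [h6]
    apply div_le_div_of_nonneg_right _ hb0.le
    rw [div_le_iff₀ (by positivity)]
    rw [div_le_iff₀ h1] at hb3
    have h8 : b * c₁ ≤ b ^ 2 * c₁ := by
      apply mul_le_mul_of_nonneg_right _ h1.le
      nlinarith
    linarith
  have h7 : (c₁ / 4) / b ≤ (c₁ / 2 - 5 * ε - c₁ / 8) / b := by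
    apply div_le_div_of_nonneg_right _ hb0.le
    linarith
  have e1 : c₁ / 32 / b = ((c₁ / 4) / b - c₁ / 8 / b) / 4 := by ring
  rw [e1]
  linarith

end Pool.Agent.H22.QC
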