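import Mathlib

/-! Module N of MP_f3a553_pr: fourth moments and clipping (helper22). -/

set_option autoImplicit false

open MeasureTheory ProbabilityTheory Finset

namespace Pool.Agent.H22.QC

section
variable {Ω : Type*} [MeasurableSpace Ω] {P : Measure Ω} [IsProbabilityMeasure P]

theorem int_bdd {f : Ω → ℝ} (hf : Measurable f) {B : ℝ} (hB : ∀ ω, |f ω| ≤ B) : Integrable f P :=
  Integrable.of_bound hf.aestronglyMeasurable B (Filter.Eventually.of_forall hB)

/-- moments of sums of independent centred bounded variables -/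
theorem moments {ι : Type*} {Z : ι → Ω → ℝ} (hm : ∀ a, Measurable (Z a)) (hind : iIndepFun Z P)
    {B : ℝ} (hB : ∀ a ω, |Z a ω| ≤ B) (h0 : ∀ a, ∫ ω, Z a ω ∂P = 0) (s : Finset ι) :
    ∫ ω, (∑ a ∈ s, Z a ω) ^ 2 ∂P = ∑ a ∈ s, ∫ ω, Z a ω ^ 2 ∂P ∧
    ∫ ω, (∑ a ∈ s, Z a ω) ^ 4 ∂P ≤
      3 * (∑ a ∈ s, ∫ ω, Z a ω ^ 2 ∂P) ^ 2 + ∑ a ∈ s, ∫ ω, Z a ω ^ 4 ∂P := by
  classical
  induction s using Finset.induction_on with
  | empty => simp
  | insert a s ha ih =>
    obtain ⟨ih2, ih4⟩ := ih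
    set S : Ω → ℝ := fun ω => ∑ a ∈ s, Z a ω with hS
    have hSm : Measurable S := by
      rw [hS]; exact Finset.measurable_fun_sum _ fun i _ => hm i
    have hSb : ∀ ω, |S ω| ≤ s.card * B := by
      intro ω
      calc |S ω| ≤ ∑ a ∈ s, |Z a ω| := Finset.abs_sum_le_sum_abs _ _
        _ ≤ ∑ a ∈ s, B := Finset.sum_le_sum fun i _ => hB i ω
        _ = s.card * B := by rw [Finset.sum_const, nsmul_eq_mul]
    have hI : IndepFun S (Z a) P := by
      have h := hind.indepFun_finsetSum_of_notMem hm ha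
      have e : (∑ j ∈ s, Z j) = S := by
        ext ω; simp [hS]
      rwa [e] at h
    have hprod : ∀ i j : ℕ, ∫ ω, S ω ^ i * Z a ω ^ j ∂P = (∫ ω, S ω ^ i ∂P) * ∫ ω, Z a ω ^ j ∂P := by
      intro i j
      exact hI.integral_fun_comp_mul_comp (f := fun x : ℝ => x ^ i) (g := fun x : ℝ => x ^ j)
        hSm.aemeasurable (hm a).aemeasurable (by fun_prop) (by fun_prop)
    have hint : ∀ i j : ℕ, Integrable (fun ω => S ω ^ i * Z a ω ^ j) P := by
      intro i j
      apply int_bdd ((hSm.pow_const i).mul ((hm a).pow_const j)) (B := (s.card * B) ^ i * B ^ j)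
      intro ω
      simp only [Pi.mul_apply]
      rw [abs_mul, abs_pow, abs_pow]
      have hB0 : 0 ≤ B := (abs_nonneg _).trans (hB a ω)
      exact mul_le_mul (pow_le_pow_left₀ (abs_nonneg _) (hSb ω) i)
        (pow_le_pow_left₀ (abs_nonneg _) (hB a ω) j) (by positivity) (by positivity)
    have e1 : ∀ ω, ∑ b ∈ insert a s, Z b ω = S ω + Z a ω := by
      intro ω
      rw [Finset.sum_insert ha, add_comm]
    have z1 : ∫ ω, Z a ω ^ 1 ∂P = 0 := by simpa using h0 a
    simp_rw [e1]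
    rw [Finset.sum_insert ha, Finset.sum_insert ha]
    constructor
    · have e2 : ∀ ω, (S ω + Z a ω) ^ 2 =
          S ω ^ 2 * Z a ω ^ 0 + 2 * (S ω ^ 1 * Z a ω ^ 1) + S ω ^ 0 * Z a ω ^ 2 := by
        intro ω; ring
      simp_rw [e2]
      have i1 : Integrable (fun ω => S ω ^ 2 * Z a ω ^ 0 + 2 * (S ω ^ 1 * Z a ω ^ 1)) P :=
        (hint 2 0).add ((hint 1 1).const_mul 2)
      rw [integral_add i1 (hint 0 2),
        integral_add (hint 2 0) ((hint 1 1).const_mul 2), integral_const_mul, hprod, hprod, hprod, z1,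
        ih2]
      simp
      ring
    · have e2 : ∀ ω, (S ω + Z a ω) ^ 4 =
          S ω ^ 4 * Z a ω ^ 0 + 4 * (S ω ^ 3 * Z a ω ^ 1) + 6 * (S ω ^ 2 * Z a ω ^ 2)
            + 4 * (S ω ^ 1 * Z a ω ^ 3) + S ω ^ 0 * Z a ω ^ 4 := by
        intro ω; ring
      have hS1 : ∫ ω, S ω ^ 1 ∂P = 0 := by
        simp only [pow_one, hS]
        rw [integral_finsetSum _ fun i _ => int_bdd (hm i) (hB i)]
        exact Finset.sum_eq_zero fun i _ => h0 i
      simp_rw [e2]
      have i1 : Integrable (fun ω => S ω ^ 4 * Z a ω ^ 0 + 4 * (S ω ^ 3 * Z a ω ^ 1)) P :=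
        (hint 4 0).add ((hint 3 1).const_mul 4)
      have i2 : Integrable (fun ω => S ω ^ 4 * Z a ω ^ 0 + 4 * (S ω ^ 3 * Z a ω ^ 1)
          + 6 * (S ω ^ 2 * Z a ω ^ 2)) P := i1.add ((hint 2 2).const_mul 6)
      have i3 : Integrable (fun ω => S ω ^ 4 * Z a ω ^ 0 + 4 * (S ω ^ 3 * Z a ω ^ 1)
          + 6 * (S ω ^ 2 * Z a ω ^ 2) + 4 * (S ω ^ 1 * Z a ω ^ 3)) P :=
        i2.add ((hint 1 3).const_mul 4)
      rw [integral_add i3 (hint 0 4), integral_add i2 ((hint 1 3).const_mul 4),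
        integral_add i1 ((hint 2 2).const_mul 6),
        integral_add (hint 4 0) ((hint 3 1).const_mul 4), integral_const_mul, integral_const_mul,
        integral_const_mul, hprod, hprod, hprod, hprod, hprod, z1, hS1, ih2]
      simp only [pow_zero, mul_zero, zero_mul, add_zero, integral_const, probReal_univ, smul_eq_mul,
        mul_one, one_mul]
      have hz2 : 0 ≤ ∫ ω, Z a ω ^ 2 ∂P := integral_nonneg fun ω => sq_nonneg _
      nlinarith [sq_nonneg (∫ ω, Z a ω ^ 2 ∂P)]

/-- second moments of sums of independent centred square integrable variables -/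
theorem second_moment {ι : Type*} {Z : ι → Ω → ℝ} (hind : iIndepFun Z P)
    (hL : ∀ a, MemLp (Z a) 2 P) (h0 : ∀ a, ∫ ω, Z a ω ∂P = 0) (s : Finset ι) :
    ∫ ω, (∑ a ∈ s, Z a ω) ^ 2 ∂P = ∑ a ∈ s, ∫ ω, Z a ω ^ 2 ∂P := by
  have h := IndepFun.variance_sum (X := Z) (s := s) (μ := P) (fun i _ => hL i)
    (fun i _ j _ hij => hind.indepFun hij)
  have e : (∑ i ∈ s, Z i) = fun ω => ∑ i ∈ s, Z i ω := by
    ext ω; simp
  rw [e] at h
  have hLs : MemLp (fun ω => ∑ i ∈ s, Z i ω) 2 P := memLp_finsetSum _ fun i _ => hL i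
  have h1 : ∫ ω, ∑ i ∈ s, Z i ω ∂P = 0 := by
    rw [integral_finsetSum _ fun i _ => (hL i).integrable one_le_two]
    exact Finset.sum_eq_zero fun i _ => h0 i
  rw [variance_of_integral_eq_zero hLs.aestronglyMeasurable.aemeasurable h1] at h
  rw [h]
  apply Finset.sum_congr rfl
  intro i _
  rw [variance_of_integral_eq_zero (hL i).aestronglyMeasurable.aemeasurable (h0 i)]

end

/-- clipping -/
noncomputable def clip (κ x : ℝ) : ℝ := max (-κ) (min κ x)

theorem clip_lip (κ x y : ℝ) : |clip κ x - clip κ y| ≤ |x - y| := by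
  unfold clip
  refine (abs_max_sub_max_le_max _ _ _ _).trans ?_
  rw [sub_self, abs_zero]
  apply max_le (abs_nonneg _)
  refine (abs_min_sub_min_le_max _ _ _ _).trans ?_
  rw [sub_self, abs_zero]
  exact max_le (abs_nonneg _) le_rfl

theorem clip_abs {κ : ℝ} (hκ : 0 ≤ κ) (x : ℝ) : |clip κ x| ≤ κ := by
  unfold clip
  rw [abs_le]
  exact ⟨le_max_left _ _, max_le (by linarith) (min_le_left _ _)⟩

theorem clip_abs' {κ : ℝ} (hκ : 0 ≤ κ) (x : ℝ) : |clip κ x| ≤ |x| := by
  have h := clip_lip κ x 0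
  have e : clip κ 0 = 0 := by
    unfold clip
    rw [min_eq_right hκ, max_eq_right (by linarith)]
  rwa [e, sub_zero, sub_zero] at h

theorem clip_diff {κ : ℝ} (hκ : 0 < κ) (x : ℝ) : |clip κ x - x| ≤ x ^ 2 / κ := by
  rw [le_div_iff₀ hκ]
  unfold clip
  rcases le_total x (-κ) with h | h
  · rw [min_eq_right (by linarith), max_eq_left h, abs_of_nonneg (by linarith)]
    nlinarith
  · rcases le_total x κ with h2 | h2
    · rw [min_eq_right h2, max_eq_right h]
      simp
      positivity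
    · rw [min_eq_left h2, max_eq_right (by linarith), abs_of_nonpos (by linarith)]
      nlinarith

theorem clip_sq {κ : ℝ} (hκ : 0 < κ) (x : ℝ) : x ^ 2 - x ^ 4 / κ ^ 2 ≤ clip κ x ^ 2 := by
  rw [sub_le_iff_le_add, ← sub_le_iff_le_add', le_div_iff₀ (by positivity)]
  unfold clip
  rcases le_total x (-κ) with h | h
  · rw [min_eq_right (by linarith), max_eq_left h]
    have h3 : κ ^ 2 ≤ x ^ 2 := by nlinarith
    nlinarith [sq_nonneg (x ^ 2 - κ ^ 2), sq_nonneg κ]
  · rcases le_total x κ with h2 | h2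
    · rw [min_eq_right h2, max_eq_right h]
      simp
      positivity
    · rw [min_eq_left h2, max_eq_right (by linarith)]
      have h3 : κ ^ 2 ≤ x ^ 2 := by nlinarith
      nlinarith [sq_nonneg (x ^ 2 - κ ^ 2), sq_nonneg κ]

theorem clip_mono (κ : ℝ) {x y : ℝ} (h : x ≤ y) : clip κ x ≤ clip κ y := by
  unfold clip
  exact max_le_max le_rfl (min_le_min le_rfl h)

theorem clip_exp_aux {κ : ℝ} (hκ : κ ≤ 1) {a b : ℝ} (hab : a ≤ b) :
    |clip κ (Real.exp a - 1) - clip κ (Real.exp b - 1)| ≤ 2 * (b - a) := by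
  have key : ∀ a b : ℝ, a ≤ b → Real.exp b ≤ 2 →
      |clip κ (Real.exp a - 1) - clip κ (Real.exp b - 1)| ≤ 2 * (b - a) := by
    intro a b hab hb
    refine (clip_lip _ _ _).trans ?_
    have h1 : Real.exp a ≤ Real.exp b := Real.exp_le_exp.2 hab
    rw [abs_of_nonpos (by linarith)]
    have h2 : Real.exp b * (1 + (a - b)) ≤ Real.exp a := by
      have h3 := Real.add_one_le_exp (a - b)
      have h4 : Real.exp b * Real.exp (a - b) = Real.exp a := by rw [← Real.exp_add]; ring_nf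
      rw [← h4]
      apply mul_le_mul_of_nonneg_left _ (Real.exp_pos b).le
      linarith
    nlinarith
  rcases le_or_gt (Real.exp b) 2 with hb | hb
  · exact key a b hab hb
  · have e2 : ∀ x : ℝ, 2 ≤ Real.exp x → clip κ (Real.exp x - 1) = clip κ (Real.exp (Real.log 2) - 1) := by
      intro x hx
      rw [Real.exp_log (by norm_num)]
      unfold clip
      rw [min_eq_left (by linarith), min_eq_left (by linarith)]
    rw [e2 b hb.le]
    rcases le_or_gt (Real.exp a) 2 with ha | ha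
    · have h1 : a ≤ Real.log 2 := by rwa [Real.le_log_iff_exp_le (by norm_num)]
      have h2 : Real.log 2 ≤ b := by
        rw [Real.log_le_iff_le_exp (by norm_num)]; exact hb.le
      refine (key a (Real.log 2) h1 (by rw [Real.exp_log (by norm_num)])).trans ?_
      linarith
    · rw [e2 a ha.le, sub_self, abs_zero]
      linarith

theorem clip_exp {κ : ℝ} (hκ : κ ≤ 1) (a b : ℝ) :
    |clip κ (Real.exp a - 1) - clip κ (Real.exp b - 1)| ≤ 2 * |a - b| := by
  rcases le_total a b with h | h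
  · rw [abs_of_nonpos (by linarith : a - b ≤ 0)]
    have := clip_exp_aux hκ h
    linarith
  · rw [abs_of_nonneg (by linarith : 0 ≤ a - b), abs_sub_comm]
    exact clip_exp_aux hκ h

end Pool.Agent.H22.QC
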