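import Pool.Agent.H22.QC.Blocks
import Pool.Agent.H9.QC.X
import Pool.Agent.H95.QC.Chain

/-! Module ND1 of MP_f3a553_pr: L2 structure of the window decomposition (helper22). -/

set_option autoImplicit false

open MeasureTheory ProbabilityTheory Finset
open scoped NNReal ENNReal

namespace Pool.Agent.H22.QC.ND1
open Pool.Agent.H95 Pool.Agent.H95.QC Pool.Agent.H9.QC

/-! ### generalities -/

section gen
set_option linter.unusedSectionVars false
variable {G : Type} [Fintype G] [DecidableEq G] [AddCommGroup G]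

theorem Z_add (st : Fin 4 → G) (a : G → ℝ) (n : ℕ) (w : ℕ → G → ℝ≥0) (f g : G → ℝ) :
    Z st a n w (f + g) = Z st a n w f + Z st a n w g := by
  have h := Z_sub st a n w (f + g) g
  rw [add_sub_cancel_right] at h
  linarith

theorem Z_split (st : Fin 4 → G) (a : G → ℝ) (m n : ℕ) (w : ℕ → G → ℝ≥0) (f : G → ℝ) :
    Z st a (m + n) w f = Z st a n (shift m w) (evo st a m w f) := by
  unfold Z
  rw [evo_split]

theorem integrable_mul_shift {ν : Measure ℝ≥0} [IsProbabilityMeasure ν] {t : ℕ}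
    {f g : (ℕ → G → ℝ≥0) → ℝ} (hf : DepLt t f) (hfi : Integrable f (env G ν))
    (hgi : Integrable g (env G ν)) :
    Integrable (fun w => f w * g (shift t w)) (env G ν) := by
  unfold env at *
  set m := Measure.pi (fun _ : G => ν)
  have hmp := measurePreserving_splice m t
  have hgs : AEStronglyMeasurable (fun w => g (shift t w)) (iid m) :=
    hgi.aestronglyMeasurable.comp_measurePreserving (measurePreserving_shift m t)
  have h1 := hmp.integrable_comp (g := fun w => f w * g (shift t w))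
    (hfi.aestronglyMeasurable.mul hgs)
  rw [← h1]
  have e : ((fun w => f w * g (shift t w)) ∘ splice t) =
      fun q : (ℕ → G → ℝ≥0) × (ℕ → G → ℝ≥0) => f q.1 * g q.2 := by
    funext q
    simp only [Function.comp_apply, hf.splice_eq, shift_splice]
  rw [e]
  exact hfi.mul_prod hgi

theorem integral_mul_shift' {ν : Measure ℝ≥0} [IsProbabilityMeasure ν] {t : ℕ}
    {f g : (ℕ → G → ℝ≥0) → ℝ} (hf : DepLt t f) (hfi : Integrable f (env G ν))
    (hgi : Integrable g (env G ν)) :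
    ∫ w, f w * g (shift t w) ∂(env G ν) = (∫ w, f w ∂(env G ν)) * ∫ w, g w ∂(env G ν) := by
  unfold env at *
  exact integral_mul_shift _ hf hfi.aestronglyMeasurable hgi.aestronglyMeasurable

theorem mp_shift {ν : Measure ℝ≥0} [IsProbabilityMeasure ν] (t : ℕ) :
    MeasurePreserving (shift t) (env G ν) (env G ν) := by
  unfold env
  exact measurePreserving_shift _ t

theorem integral_shift {ν : Measure ℝ≥0} [IsProbabilityMeasure ν] (t : ℕ)
    {g : (ℕ → G → ℝ≥0) → ℝ} (hg : AEStronglyMeasurable g (env G ν)) :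
    ∫ w, g (shift t w) ∂(env G ν) = ∫ w, g w ∂(env G ν) := by
  have h := mp_shift (G := G) (ν := ν) t
  rw [← integral_map (f := g) h.measurable.aemeasurable (by rw [h.map_eq]; exact hg), h.map_eq]

theorem iterate_lin (st : Fin 4 → G) (a : G → ℝ) (n : ℕ) (F : G → ℝ) (x : G) :
    (step st a)^[n] F x = ∑ y, (step st a)^[n] (dl y) x * F y := by
  have h1 : ∀ F : G → ℝ, (step st a)^[n] F = ((stepL st a) ^ n) F := by
    intro F
    rw [Module.End.pow_apply]
    rfl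
  conv_lhs => rw [h1, eq_sum_dl F, map_sum]
  rw [Finset.sum_apply]
  apply Finset.sum_congr rfl
  intro y _
  rw [map_smul, h1, Pi.smul_apply, smul_eq_mul, mul_comm]

end gen

section tor
variable (M : ℕ) [NeZero M]

theorem sos_En (T : ℕ) : IsSOS (En M T) := by
  let I := {n // n ∈ Icc 1 T} × Tor M
  let e : I ≃ Fin (Fintype.card I) := Fintype.equivFin I
  refine ⟨Fintype.card I, fun i y => (step (st M) 1)^[(e.symm i).1.1] (dl y) (e.symm i).2, ?_⟩
  intro F
  have h1 : ∀ i : Fin (Fintype.card I),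
      ∑ y, (step (st M) 1)^[(e.symm i).1.1] (dl y) (e.symm i).2 * F y =
      (step (st M) 1)^[(e.symm i).1.1] F (e.symm i).2 := fun i => (iterate_lin _ _ _ _ _).symm
  simp_rw [h1]
  rw [Equiv.sum_comp e.symm (fun p : I => ((step (st M) 1)^[p.1.1] F p.2) ^ 2), Fintype.sum_prod_type]
  unfold En Pool.Agent.H95.QC.sq
  rw [← Finset.sum_coe_sort]

/-! ### the objects -/

/-- innovation of the vector in a window -/
noncomputable def hh (n ℓ a : ℕ) (w : ℕ → Tor M → ℝ≥0) : Tor M → ℝ :=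
  evo (st M) 1 ℓ (shift (a * ℓ) w) (q M (n + a * ℓ)) - q M (n + (a + 1) * ℓ)

/-- the difference term -/
noncomputable def dd (n T ℓ a : ℕ) (w : ℕ → Tor M → ℝ≥0) : ℝ :=
  Z (st M) 1 (T - (a + 1) * ℓ) (shift ((a + 1) * ℓ) w) (hh M n ℓ a w) - ∑ x, hh M n ℓ a w x

/-- partition function from the kernel at a window boundary -/
noncomputable def VV (n T ℓ a : ℕ) (w : ℕ → Tor M → ℝ≥0) : ℝ :=
  Z (st M) 1 (T - a * ℓ) (shift (a * ℓ) w) (q M (n + a * ℓ))

/-- remainder from the window `a` on -/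
noncomputable def RR (n T J ℓ a : ℕ) (w : ℕ → Tor M → ℝ≥0) : ℝ :=
  VV M n T ℓ a w - 1 - ∑ b ∈ Ico a J, win M n ℓ b w

theorem sum_hh (n ℓ a : ℕ) (w : ℕ → Tor M → ℝ≥0) : ∑ x, hh M n ℓ a w x = win M n ℓ a w := by
  unfold hh win Z
  simp only [Pi.sub_apply, Finset.sum_sub_distrib]
  rw [sum_q]

theorem VV_step {n T ℓ a : ℕ} (h : (a + 1) * ℓ ≤ T) (w : ℕ → Tor M → ℝ≥0) :
    VV M n T ℓ a w = VV M n T ℓ (a + 1) w + win M n ℓ a w + dd M n T ℓ a w := by
  have e1 : T - a * ℓ = ℓ + (T - (a + 1) * ℓ) := by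
    have : (a + 1) * ℓ = a * ℓ + ℓ := by ring
    omega
  have e2 : evo (st M) 1 ℓ (shift (a * ℓ) w) (q M (n + a * ℓ)) =
      q M (n + (a + 1) * ℓ) + hh M n ℓ a w := by
    unfold hh
    rw [add_sub_cancel]
  have e3 : shift ℓ (shift (a * ℓ) w) = shift ((a + 1) * ℓ) w := by
    rw [shift_shift]
    congr 1
    ring
  unfold VV dd
  rw [e1, Z_split, e2, e3, Z_add, sum_hh]
  ring

theorem RR_step {n T J ℓ a : ℕ} (h : J * ℓ ≤ T) (ha : a < J) (w : ℕ → Tor M → ℝ≥0) :
    RR M n T J ℓ a w = dd M n T ℓ a w + RR M n T J ℓ (a + 1) w := by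
  have h1 : (a + 1) * ℓ ≤ T := (Nat.mul_le_mul_right ℓ (by omega)).trans h
  unfold RR
  rw [VV_step M h1, Finset.sum_eq_sum_Ico_succ_bot ha]
  ring

theorem RR_zero {n T J ℓ : ℕ} (w : ℕ → Tor M → ℝ≥0) :
    RR M n T J ℓ 0 w = Z (st M) 1 T w (q M n) - 1 - ∑ a : Fin J, win M n ℓ a w := by
  unfold RR VV
  rw [← Finset.range_eq_Ico, Finset.sum_range]
  simp [shift_zero]

theorem win_meas (n ℓ a : ℕ) : Measurable (win M n ℓ a) := by
  unfold win
  exact ((measurable_Z_left _ _ _ _).comp (measurable_shift _)).sub_const _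

theorem VV_meas (n T ℓ a : ℕ) : Measurable (VV M n T ℓ a) := by
  unfold VV
  exact (measurable_Z_left _ _ _ _).comp (measurable_shift _)

theorem hh_meas (n ℓ a : ℕ) : Measurable (hh M n ℓ a) := by
  unfold hh
  exact ((measurable_evo_left _ _ _ _).comp (measurable_shift _)).sub_const _

theorem hh_dep (n ℓ a : ℕ) : DepLt ((a + 1) * ℓ) (hh M n ℓ a) := by
  intro x x' h
  unfold hh
  congr 1
  apply evo_depLt (st M) 1 ℓ (q M (n + a * ℓ))
  intro i hi
  simp only [shift_apply]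
  apply h
  have : (a + 1) * ℓ = a * ℓ + ℓ := by ring
  omega

variable {M}
variable {ν : Measure ℝ≥0} {s : ℝ}

theorem memLp_shift (h : Wt ν s) (t T : ℕ) (F : Tor M → ℝ) :
    MemLp (fun w => Z (st M) 1 T (shift t w) F) 2 (env (Tor M) ν) := by
  have := h.prob
  exact (memLp_Z (st M) 1 h T F).comp_measurePreserving (mp_shift t)

theorem win_memLp (h : Wt ν s) (n ℓ a : ℕ) : MemLp (win M n ℓ a) 2 (env (Tor M) ν) := by
  have := h.prob
  unfold win
  exact (memLp_shift h _ _ _).sub (memLp_const _)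

theorem VV_memLp (h : Wt ν s) (n T ℓ a : ℕ) : MemLp (VV M n T ℓ a) 2 (env (Tor M) ν) :=
  memLp_shift h _ _ _

theorem RR_memLp (h : Wt ν s) (n T J ℓ a : ℕ) : MemLp (RR M n T J ℓ a) 2 (env (Tor M) ν) := by
  have := h.prob
  unfold RR
  exact ((VV_memLp h _ _ _ _).sub (memLp_const _)).sub (memLp_finsetSum _ fun b _ => win_memLp h _ _ _)

theorem dd_memLp (h : Wt ν s) {n T J ℓ a : ℕ} (hJ : J * ℓ ≤ T) (ha : a < J) :
    MemLp (dd M n T ℓ a) 2 (env (Tor M) ν) := by
  have e : dd M n T ℓ a = fun w => RR M n T J ℓ a w - RR M n T J ℓ (a + 1) w := by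
    funext w
    rw [RR_step M hJ ha]
    ring
  rw [e]
  exact (RR_memLp h _ _ _ _ _).sub (RR_memLp h _ _ _ _ _)

theorem mean_shift (h : Wt ν s) (t T m : ℕ) :
    ∫ w, Z (st M) 1 T (shift t w) (q M m) ∂(env (Tor M) ν) = 1 := by
  have := h.prob
  rw [integral_shift t (memLp_Z (st M) 1 h T _).aestronglyMeasurable, mean_Z (st M) 1 h,
    Pool.Agent.H95.QC.sum_iterate_step, sum_q]

theorem win_mean (h : Wt ν s) (n ℓ a : ℕ) : ∫ w, win M n ℓ a w ∂(env (Tor M) ν) = 0 := by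
  have := h.prob
  unfold win
  rw [integral_sub ((memLp_shift h _ _ _).integrable one_le_two) (integrable_const _), mean_shift h,
    integral_const, probReal_univ, one_smul, sub_self]

theorem RR_mean (h : Wt ν s) (n T J ℓ a : ℕ) : ∫ w, RR M n T J ℓ a w ∂(env (Tor M) ν) = 0 := by
  have := h.prob
  unfold RR
  have i1 : Integrable (fun w => VV M n T ℓ a w) (env (Tor M) ν) :=
    (VV_memLp h _ _ _ _).integrable one_le_two
  have i2 : Integrable (fun w => VV M n T ℓ a w - 1) (env (Tor M) ν) := i1.sub (integrable_const _)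
  have i3 : ∀ b ∈ Ico a J, Integrable (fun w => win M n ℓ b w) (env (Tor M) ν) := fun b _ =>
    (win_memLp h _ _ _).integrable one_le_two
  rw [integral_sub i2 (integrable_finsetSum _ i3), integral_finsetSum _ i3,
    integral_sub i1 (integrable_const _)]
  simp_rw [win_mean h]
  unfold VV
  rw [mean_shift h, integral_const, probReal_univ, one_smul]
  simp

/-- independence of the windows -/
theorem win_indep (h : Wt ν s) (n ℓ J : ℕ) :
    iIndepFun (fun a : Fin J => win M n ℓ a) (env (Tor M) ν) := by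
  have := h.prob
  unfold env
  apply indep_blocks (Measure.pi fun _ : Tor M => ν)
    (fun a w => Z (st M) 1 ℓ w (q M (n + a * ℓ)) - 1)
  · intro a x x' hx
    have := evo_depLt (st M) 1 ℓ (q M (n + a * ℓ)) x x' hx
    simp only at this
    simp only [Z, this]
  · intro a
    exact (measurable_Z_left _ _ _ _).sub_const _

/-- remainder as a function of the future -/
theorem RR_future {n T J ℓ a : ℕ} :
    ∃ ρ : (ℕ → Tor M → ℝ≥0) → ℝ, Measurable ρ ∧ ∀ w, RR M n T J ℓ a w = ρ (shift (a * ℓ) w) := by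
  refine ⟨fun w => Z (st M) 1 (T - a * ℓ) w (q M (n + a * ℓ)) - 1 -
    ∑ b ∈ Ico a J, (Z (st M) 1 ℓ (shift ((b - a) * ℓ) w) (q M (n + b * ℓ)) - 1), ?_, ?_⟩
  · refine ((measurable_Z_left _ _ _ _).sub_const _).sub (Finset.measurable_sum _ fun b _ => ?_)
    exact ((measurable_Z_left _ _ _ _).comp (measurable_shift _)).sub_const _
  · intro w
    unfold RR VV
    congr 1
    apply Finset.sum_congr rfl
    intro b hb
    rw [mem_Ico] at hb
    unfold win
    rw [shift_shift]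
    congr 3
    rw [← Nat.add_mul]
    congr 1
    omega

/-- orthogonality -/
theorem orth (hE5 : TargetE5) (h : Wt ν s) {n T J ℓ a : ℕ} :
    ∫ w, dd M n T ℓ a w * RR M n T J ℓ (a + 1) w ∂(env (Tor M) ν) = 0 := by
  have hprob := h.prob
  obtain ⟨ρ, hρm, hρ⟩ := RR_future (M := M) (n := n) (T := T) (J := J) (ℓ := ℓ) (a := a + 1)
  have hρL : MemLp ρ 2 (env (Tor M) ν) := by
    have h1 := RR_memLp (M := M) h n T J ℓ (a + 1)
    have e : RR M n T J ℓ (a + 1) = ρ ∘ shift ((a + 1) * ℓ) := by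
      funext w; exact hρ w
    rw [e] at h1
    have hmp := mp_shift (G := Tor M) (ν := ν) ((a + 1) * ℓ)
    rw [← hmp.map_eq]
    exact (memLp_map_measure_iff (by rw [hmp.map_eq]; exact hρm.aestronglyMeasurable)
      hmp.measurable.aemeasurable).2 h1
  set T' := T - (a + 1) * ℓ with hT'
  set g : Tor M → (ℕ → Tor M → ℝ≥0) → ℝ := fun x w' => (Z (st M) 1 T' w' (dl x) - 1) * ρ w' with hg
  have hgi : ∀ x, Integrable (g x) (env (Tor M) ν) := by
    intro x
    exact ((memLp_Z (st M) 1 h T' (dl x)).sub (memLp_const 1)).integrable_mul hρL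
  have hhi : ∀ x, Integrable (fun w => hh M n ℓ a w x) (env (Tor M) ν) := by
    intro x
    unfold hh
    have h1 := ((hE5 (Tor M) (st M) 1 ν s h ℓ (q M (n + a * ℓ))).1 x).1
    have h2 : Integrable (fun w => evo (st M) 1 ℓ (shift (a * ℓ) w) (q M (n + a * ℓ)) x)
        (env (Tor M) ν) := (mp_shift (a * ℓ)).integrable_comp_of_integrable h1
    exact h2.sub (integrable_const _)
  have hh0 : ∀ x, ∫ w, hh M n ℓ a w x ∂(env (Tor M) ν) = 0 := by
    intro x
    unfold hh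
    obtain ⟨h1, h1'⟩ := (hE5 (Tor M) (st M) 1 ν s h ℓ (q M (n + a * ℓ))).1 x
    have h2 : Integrable (fun w => evo (st M) 1 ℓ (shift (a * ℓ) w) (q M (n + a * ℓ)) x)
        (env (Tor M) ν) := (mp_shift (a * ℓ)).integrable_comp_of_integrable h1
    simp only [Pi.sub_apply]
    rw [integral_sub h2 (integrable_const _),
      integral_shift (a * ℓ) (g := fun w => evo (st M) 1 ℓ w (q M (n + a * ℓ)) x)
        h1.aestronglyMeasurable, h1', ← q_add, integral_const, probReal_univ, one_smul]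
    have e : n + (a + 1) * ℓ = n + a * ℓ + ℓ := by ring
    rw [e, sub_self]
  have key : ∀ w, dd M n T ℓ a w * RR M n T J ℓ (a + 1) w =
      ∑ x, hh M n ℓ a w x * g x (shift ((a + 1) * ℓ) w) := by
    intro w
    unfold dd
    rw [hρ, Pool.Agent.H95.QC.Z_eq_sum, ← Finset.sum_sub_distrib, Finset.sum_mul]
    apply Finset.sum_congr rfl
    intro x _
    simp only [hg]
    ring
  simp_rw [key]
  have hdep : ∀ x, DepLt ((a + 1) * ℓ) (fun w => hh M n ℓ a w x) := by
    intro x v v' hv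
    have := hh_dep M n ℓ a v v' hv
    simp only [this]
  rw [integral_finsetSum _ fun x _ => integrable_mul_shift (hdep x) (hhi x) (hgi x)]
  apply Finset.sum_eq_zero
  intro x _
  rw [integral_mul_shift' (hdep x) (hhi x) (hgi x), hh0, zero_mul]

theorem RR_sq (hE5 : TargetE5) (h : Wt ν s) {n T J ℓ a : ℕ} (hJ : J * ℓ ≤ T) (ha : a < J) :
    ∫ w, RR M n T J ℓ a w ^ 2 ∂(env (Tor M) ν) =
      ∫ w, dd M n T ℓ a w ^ 2 ∂(env (Tor M) ν) +
      ∫ w, RR M n T J ℓ (a + 1) w ^ 2 ∂(env (Tor M) ν) := by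
  have hd := dd_memLp (M := M) (n := n) h hJ ha
  have hR := RR_memLp (M := M) h n T J ℓ (a + 1)
  have e : ∀ w, RR M n T J ℓ a w ^ 2 = (dd M n T ℓ a w ^ 2 + RR M n T J ℓ (a + 1) w ^ 2) +
      2 * (dd M n T ℓ a w * RR M n T J ℓ (a + 1) w) := by
    intro w
    rw [RR_step M hJ ha]
    ring
  simp_rw [e]
  have i1 : Integrable (fun w => dd M n T ℓ a w ^ 2 + RR M n T J ℓ (a + 1) w ^ 2)
      (env (Tor M) ν) := hd.integrable_sq.add hR.integrable_sq
  have i2 : Integrable (fun w => dd M n T ℓ a w * RR M n T J ℓ (a + 1) w) (env (Tor M) ν) :=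
    hd.integrable_mul hR
  rw [integral_add i1 (i2.const_mul 2), integral_const_mul, orth hE5 h, mul_zero, add_zero,
    integral_add hd.integrable_sq hR.integrable_sq]

theorem RR_sum (hE5 : TargetE5) (h : Wt ν s) {n T J ℓ : ℕ} (hJ : J * ℓ ≤ T) (a : ℕ) (ha : a ≤ J) :
    ∫ w, RR M n T J ℓ a w ^ 2 ∂(env (Tor M) ν) =
      ∑ b ∈ Ico a J, ∫ w, dd M n T ℓ b w ^ 2 ∂(env (Tor M) ν) +
      ∫ w, RR M n T J ℓ J w ^ 2 ∂(env (Tor M) ν) := by
  induction ha using Nat.decreasingInduction with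
  | self => simp
  | of_succ k hk ih =>
    rw [RR_sq hE5 h hJ hk, ih, Finset.sum_eq_sum_Ico_succ_bot hk]
    ring

/-! ### estimates -/

theorem uZ_le (hK0 : TargetK0) {n m : ℕ} (hn : 1 ≤ n) (hm : n ≤ m) : uZ m ≤ 1 / (3 * (n : ℝ)) := by
  refine (hK0.2 m (by omega)).2.trans ?_
  have h1 : (0 : ℝ) < n := by exact_mod_cast hn
  have h2 : (n : ℝ) ≤ m := by exact_mod_cast hm
  apply one_div_le_one_div_of_le (by positivity)
  linarith

theorem sq_q (hK1 : TargetK1) {j m : ℕ} (hm : 2 * (m + j) < M) :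
    Pool.Agent.H95.QC.sq ((step (st M) 1)^[j] (q M m)) = uZ (m + j) := by
  rw [← q_add]
  exact hK1 M (m + j) hm

/-- energy of the kernel -/
theorem En_q (hK1 : TargetK1) (hK0 : TargetK0) {n m T : ℕ} (hn : 1 ≤ n) (hm : n ≤ m)
    (hM : 2 * (m + T) < M) : En M T (q M m) ≤ T / (3 * n) := by
  unfold En
  calc ∑ j ∈ Icc 1 T, Pool.Agent.H95.QC.sq ((step (st M) 1)^[j] (q M m)) ≤ ∑ j ∈ Icc 1 T, 1 / (3 * (n : ℝ)) := by
        apply Finset.sum_le_sum
        intro j hj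
        rw [mem_Icc] at hj
        rw [sq_q hK1 (by omega)]
        exact uZ_le hK0 hn (by omega)
    _ = T / (3 * n) := by
        rw [Finset.sum_const, Nat.card_Icc, nsmul_eq_mul]
        simp only [add_tsub_cancel_right]
        ring

/-- second moment from a `lintegral` bound -/
theorem integral_le_of_lint {f : (ℕ → Tor M → ℝ≥0) → ℝ} {c : ℝ} (hc : 0 ≤ c)
    (hf : AEStronglyMeasurable f (env (Tor M) ν)) (hf0 : ∀ w, 0 ≤ f w)
    (h : ∫⁻ w, ENNReal.ofReal (f w) ∂(env (Tor M) ν) ≤ ENNReal.ofReal c) :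
    ∫ w, f w ∂(env (Tor M) ν) ≤ c := by
  rw [integral_eq_lintegral_of_nonneg_ae (ae_of_all _ hf0) hf]
  exact ENNReal.toReal_le_of_le_ofReal hc h

theorem RR_last (hK0 : TargetK0) (hK1 : TargetK1) (hP2 : TargetP2) (h : Wt ν s) {n T J ℓ : ℕ}
    (hn : 1 ≤ n) (hJ : J * ℓ ≤ T) (hD : 0 < 1 - s * Rn (n + T)) (hM : 4 * (n + T) < M) :
    ∫ w, RR M n T J ℓ J w ^ 2 ∂(env (Tor M) ν) ≤
      (s / (1 - s * Rn (n + T))) * ((T - J * ℓ : ℕ) / (3 * n)) := by
  have := h.prob
  have hs := h.nonneg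
  have hD' : 0 < 1 - s * Rn (T - J * ℓ) := lt_of_lt_of_le hD (D_anti hs (by omega))
  have e : ∀ w, RR M n T J ℓ J w ^ 2 =
      (fun w => (Z (st M) 1 (T - J * ℓ) w (q M (n + J * ℓ)) - ∑ x, q M (n + J * ℓ) x) ^ 2)
        (shift (J * ℓ) w) := by
    intro w
    unfold RR VV
    simp [sum_q]
  simp_rw [e]
  have hm : Measurable (fun w : ℕ → Tor M → ℝ≥0 =>
      (Z (st M) 1 (T - J * ℓ) w (q M (n + J * ℓ)) - ∑ x, q M (n + J * ℓ) x) ^ 2) :=
    ((measurable_Z_left _ _ _ _).sub_const _).pow_const 2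
  rw [integral_shift (J * ℓ) (g := fun w : ℕ → Tor M → ℝ≥0 =>
      (Z (st M) 1 (T - J * ℓ) w (q M (n + J * ℓ)) - ∑ x, q M (n + J * ℓ) x) ^ 2)
      hm.aestronglyMeasurable]
  have hEn := En_q (M := M) hK1 hK0 (n := n) (m := n + J * ℓ) (T := T - J * ℓ) hn (by omega)
    (by omega)
  have hEn0 := En_nonneg M (T - J * ℓ) (q M (n + J * ℓ))
  have h1 := hP2 M (T - J * ℓ) ν s (q M (n + J * ℓ)) h hD' (by omega)
  refine (integral_le_of_lint (by positivity) hm.aestronglyMeasurable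
    (fun w => _root_.sq_nonneg _) h1).trans ?_
  apply mul_le_mul _ hEn hEn0 (by positivity)
  exact div_le_div_of_nonneg_left hs hD (D_anti hs (by omega))

theorem Ken_nonneg (hs : 0 ≤ s) (T' m : ℕ) : 0 ≤ Ken s T' m := by
  unfold Ken
  apply Finset.sum_nonneg
  intro p _
  exact mul_nonneg (U_nonneg hs _) (sub_nonneg.2 (Rn_mono (by omega)))

theorem Ken_sum (hs : 0 ≤ s) (T' : ℕ) {ℓ : ℕ} (hℓ : 1 ≤ ℓ) :
    ∑ m ∈ range ℓ, Ken s T' m ≤ Phi s (ℓ - 1) * ∑ k ∈ range ℓ, (Rn (T' + k) - Rn k) := by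
  have e1 : Phi s (ℓ - 1) = ∑ k ∈ range ℓ, U s k := by
    unfold Phi
    rw [Nat.sub_add_cancel hℓ]
  rw [e1, Finset.sum_mul_sum, ← Finset.sum_product']
  set f : ℕ × ℕ → ℝ := fun p => U s p.1 * (Rn (T' + p.2) - Rn p.2) with hf
  have hf0 : ∀ p, 0 ≤ f p := fun p =>
    mul_nonneg (U_nonneg hs _) (sub_nonneg.2 (Rn_mono (by omega)))
  have e2 : ∀ m ∈ range ℓ, Ken s T' m =
      ∑ p ∈ ((range ℓ ×ˢ range ℓ).filter (fun p => p.1 + p.2 < ℓ)).filter
        (fun p => p.1 + p.2 = m), f p := by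
    intro m hm
    rw [mem_range] at hm
    unfold Ken
    apply Finset.sum_congr _ (fun _ _ => rfl)
    ext p
    simp only [Finset.HasAntidiagonal.mem_antidiagonal, mem_filter, mem_product, mem_range]
    omega
  rw [Finset.sum_congr rfl e2, Finset.sum_fiberwise_of_maps_to (g := fun p : ℕ × ℕ => p.1 + p.2)
    (f := f)]
  · exact Finset.sum_le_sum_of_subset_of_nonneg (Finset.filter_subset _ _) (fun p _ _ => hf0 p)
  · intro p hp
    rw [mem_filter] at hp
    rw [mem_range]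
    exact hp.2

theorem dd_sq (hK0 : TargetK0) (hK1 : TargetK1) (hE2 : TargetE2) (hE5 : TargetE5)
    (hP2 : TargetP2) (h : Wt ν s) {n T J ℓ a : ℕ} (hn : 1 ≤ n) (hℓ : 1 ≤ ℓ) (hJ : J * ℓ ≤ T)
    (ha : a < J) (hD : 0 < 1 - s * Rn (n + T)) (hM : 4 * (n + T) < M) :
    ∫ w, dd M n T ℓ a w ^ 2 ∂(env (Tor M) ν) ≤
      (s / (1 - s * Rn (n + T))) * (s / (3 * n)) * (1 / (1 - s * Rn (n + T))) *
        ∑ k ∈ range ℓ, (Rn (T + k) - Rn k) := by
  have hprob := h.prob
  have hs := h.nonneg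
  have haT : (a + 1) * ℓ ≤ T := (Nat.mul_le_mul_right ℓ (by omega)).trans hJ
  have haT' : a * ℓ + ℓ = (a + 1) * ℓ := by ring
  set T' := T - (a + 1) * ℓ with hT'
  have hD' : 0 < 1 - s * Rn T' := lt_of_lt_of_le hD (D_anti hs (by omega))
  have hn0 : (0 : ℝ) < n := by exact_mod_cast hn
  -- expected energy of the innovation
  obtain ⟨hi, he⟩ := (hE5 (Tor M) (st M) 1 ν s h ℓ (q M (n + a * ℓ))).2 (En M T') (sos_En M T')
  rw [hE2 M ℓ T' s (q M (n + a * ℓ)) (by omega), add_sub_cancel_left] at he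
  set c₁ := s * ∑ j ∈ Icc 1 ℓ, Ken s T' (ℓ - j) * Pool.Agent.H95.QC.sq ((step (st M) 1)^[j] (q M (n + a * ℓ)))
    with hc₁
  have hc₁0 : 0 ≤ c₁ := by
    rw [hc₁]
    exact mul_nonneg hs (Finset.sum_nonneg fun j _ => mul_nonneg (Ken_nonneg hs _ _) (sq_nonneg' _))
  have hEnh : ∫⁻ w, ENNReal.ofReal (En M T' (hh M n ℓ a w)) ∂(env (Tor M) ν) =
      ENNReal.ofReal c₁ := by
    have e1 : ∀ w, hh M n ℓ a w = evo (st M) 1 ℓ (shift (a * ℓ) w) (q M (n + a * ℓ)) -
        (step (st M) 1)^[ℓ] (q M (n + a * ℓ)) := by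
      intro w
      unfold hh
      rw [← q_add]
      congr 2
      omega
    have hm : Measurable (fun w : ℕ → Tor M → ℝ≥0 => ENNReal.ofReal
        (En M T' (evo (st M) 1 ℓ w (q M (n + a * ℓ)) - (step (st M) 1)^[ℓ] (q M (n + a * ℓ))))) :=
      ENNReal.measurable_ofReal.comp ((measurable_En M T').comp
        ((measurable_evo_left _ _ _ _).sub_const _))
    simp_rw [e1]
    have h2 := (mp_shift (G := Tor M) (ν := ν) (a * ℓ)).lintegral_comp hm
    rw [h2, ← ofReal_integral_eq_lintegral_ofReal hi (ae_of_all _ fun w => En_nonneg _ _ _), he]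
  have hbound : ∫⁻ w, ENNReal.ofReal (dd M n T ℓ a w ^ 2) ∂(env (Tor M) ν) ≤
      ENNReal.ofReal ((s / (1 - s * Rn T')) * c₁) := by
    have hHm : Measurable (Function.uncurry (fun w w' : ℕ → Tor M → ℝ≥0 =>
        ENNReal.ofReal ((Z (st M) 1 T' w' (hh M n ℓ a w) - ∑ x, hh M n ℓ a w x) ^ 2))) := by
      apply ENNReal.measurable_ofReal.comp
      refine Measurable.pow_const (Measurable.sub ?_ ?_) 2
      · exact (measurable_Z (st M) 1 T').comp
          (measurable_snd.prodMk ((hh_meas M n ℓ a).comp measurable_fst))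
      · exact Finset.measurable_sum _ fun x _ => (measurable_pi_apply x).comp
          ((hh_meas M n ℓ a).comp measurable_fst)
    have h3 := lintegral_split_le (ν := ν) (t := (a + 1) * ℓ)
      (H := fun w w' : ℕ → Tor M → ℝ≥0 =>
        ENNReal.ofReal ((Z (st M) 1 T' w' (hh M n ℓ a w) - ∑ x, hh M n ℓ a w x) ^ 2))
      (B := fun w => ENNReal.ofReal (s / (1 - s * Rn T')) * ENNReal.ofReal (En M T' (hh M n ℓ a w)))
      hHm (fun w' x x' hx => by
        have := hh_dep M n ℓ a x x' hx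
        simp only [this]) (fun w => by
        refine (hP2 M T' ν s (hh M n ℓ a w) h hD' (by omega)).trans ?_
        rw [ENNReal.ofReal_mul (by positivity)])
    refine le_trans (le_of_eq rfl) (h3.trans ?_)
    have hm2 : Measurable (fun w => ENNReal.ofReal (En M T' (hh M n ℓ a w))) :=
      ENNReal.measurable_ofReal.comp ((measurable_En M T').comp (hh_meas M n ℓ a))
    rw [lintegral_const_mul _ hm2, hEnh, ← ENNReal.ofReal_mul (by positivity)]
  have hddm : AEStronglyMeasurable (fun w => dd M n T ℓ a w ^ 2) (env (Tor M) ν) :=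
    (dd_memLp (M := M) (n := n) h hJ ha).integrable_sq.aestronglyMeasurable
  refine (integral_le_of_lint (by positivity) hddm (fun w => _root_.sq_nonneg _) hbound).trans ?_
  -- algebra
  have hc₁le : c₁ ≤ (s / (3 * n)) * (1 / (1 - s * Rn (n + T)) *
      ∑ k ∈ range ℓ, (Rn (T + k) - Rn k)) := by
    have h4 : ∑ j ∈ Icc 1 ℓ, Ken s T' (ℓ - j) * Pool.Agent.H95.QC.sq ((step (st M) 1)^[j] (q M (n + a * ℓ))) ≤
        (∑ m ∈ range ℓ, Ken s T' m) * (1 / (3 * n)) := by
      rw [sum_Icc_one, Finset.sum_mul,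
        ← Finset.sum_range_reflect (fun m => Ken s T' m * (1 / (3 * (n : ℝ)))) ℓ]
      apply Finset.sum_le_sum
      intro k hk
      rw [mem_range] at hk
      have e1 : ℓ - (k + 1) = ℓ - 1 - k := by omega
      rw [e1]
      apply mul_le_mul_of_nonneg_left _ (Ken_nonneg hs _ _)
      rw [sq_q hK1 (by omega)]
      exact uZ_le hK0 hn (by omega)
    have h5 := Ken_sum hs T' hℓ
    have h6 : ∑ k ∈ range ℓ, (Rn (T' + k) - Rn k) ≤ ∑ k ∈ range ℓ, (Rn (T + k) - Rn k) := by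
      apply Finset.sum_le_sum
      intro k _
      have := Rn_mono (show T' + k ≤ T + k by omega)
      linarith
    have h6' : 0 ≤ ∑ k ∈ range ℓ, (Rn (T' + k) - Rn k) :=
      Finset.sum_nonneg fun k _ => sub_nonneg.2 (Rn_mono (by omega))
    have hℓT : ℓ - 1 ≤ n + T := by omega
    have h7 : Phi s (ℓ - 1) ≤ 1 / (1 - s * Rn (n + T)) :=
      (Phi_le hs (lt_of_lt_of_le hD (D_anti hs hℓT))).trans
        (one_div_le_one_div_of_le hD (D_anti hs hℓT))
    have h8 : ∑ m ∈ range ℓ, Ken s T' m ≤ 1 / (1 - s * Rn (n + T)) *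
        ∑ k ∈ range ℓ, (Rn (T + k) - Rn k) :=
      h5.trans (mul_le_mul h7 h6 h6' (by positivity))
    rw [hc₁]
    calc s * _ ≤ s * ((∑ m ∈ range ℓ, Ken s T' m) * (1 / (3 * n))) :=
          mul_le_mul_of_nonneg_left h4 hs
      _ = (s / (3 * n)) * (∑ m ∈ range ℓ, Ken s T' m) := by ring
      _ ≤ _ := mul_le_mul_of_nonneg_left h8 (by positivity)
  have h9 : s / (1 - s * Rn T') ≤ s / (1 - s * Rn (n + T)) :=
    div_le_div_of_nonneg_left hs hD (D_anti hs (by omega))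
  calc (s / (1 - s * Rn T')) * c₁ ≤ (s / (1 - s * Rn (n + T))) * ((s / (3 * n)) *
        (1 / (1 - s * Rn (n + T)) * ∑ k ∈ range ℓ, (Rn (T + k) - Rn k))) :=
        mul_le_mul h9 hc₁le hc₁0 (by positivity)
    _ = _ := by ring

/-- second moment of a window -/
theorem win_sq (hK1 : TargetK1) (hE1 : TargetE1) (hE5 : TargetE5) (h : Wt ν s) {n ℓ a : ℕ}
    (hM : 2 * (n + (a + 1) * ℓ) < M) :
    ∫ w, win M n ℓ a w ^ 2 ∂(env (Tor M) ν) =
      s * ∑ j ∈ Icc 1 ℓ, Phi s (ℓ - j) * uZ (n + a * ℓ + j) := by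
  have hprob := h.prob
  have haT' : a * ℓ + ℓ = (a + 1) * ℓ := by ring
  have hsos : IsSOS (fun F : Tor M → ℝ => (∑ x, F x) ^ 2) :=
    ⟨1, fun _ _ => 1, fun F => by simp⟩
  obtain ⟨hi, he⟩ := (hE5 (Tor M) (st M) 1 ν s h ℓ (q M (n + a * ℓ))).2
    (fun F : Tor M → ℝ => (∑ x, F x) ^ 2) hsos
  rw [hE1 M ℓ s (q M (n + a * ℓ)) (by omega)] at he
  have e1 : ∀ w, win M n ℓ a w ^ 2 = (fun w : ℕ → Tor M → ℝ≥0 =>
      (∑ x, (evo (st M) 1 ℓ w (q M (n + a * ℓ)) - (step (st M) 1)^[ℓ] (q M (n + a * ℓ))) x) ^ 2)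
        (shift (a * ℓ) w) := by
    intro w
    simp only [Pi.sub_apply, Finset.sum_sub_distrib, sum_iterate_step, sum_q]
    rfl
  simp_rw [e1]
  have h2 := integral_shift (ν := ν) (a * ℓ) (g := fun w : ℕ → Tor M → ℝ≥0 =>
      (∑ x, (evo (st M) 1 ℓ w (q M (n + a * ℓ)) - (step (st M) 1)^[ℓ] (q M (n + a * ℓ))) x) ^ 2)
      hi.aestronglyMeasurable
  rw [h2, he]
  simp only [sum_iterate_step, sum_q]
  rw [add_sub_cancel_left]
  congr 1
  apply Finset.sum_congr rfl
  intro j hj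
  rw [mem_Icc] at hj
  rw [sq_q hK1 (by omega)]

end tor

theorem targetND1 (hK0 : TargetK0) (hK1 : TargetK1) (hE1 : TargetE1) (hE2 : TargetE2)
    (hE5 : TargetE5) (hP2 : TargetP2) : TargetND1 := by
  intro M n T J ℓ _ ν s h hs hn hℓ hJ hD hM
  have hprob := h.prob
  refine ⟨fun a => ⟨win_meas M n ℓ a, win_memLp h n ℓ a, win_mean h n ℓ a⟩, win_indep h n ℓ J, ?_,
    ?_, ?_, ?_⟩
  · intro a ha
    have h1 : (a + 1) * ℓ ≤ J * ℓ := Nat.mul_le_mul_right ℓ (by omega)
    exact win_sq hK1 hE1 hE5 h (by omega)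
  · have := RR_memLp (M := M) h n T J ℓ 0
    have e : RR M n T J ℓ 0 = fun w => Z (st M) 1 T w (q M n) - 1 - ∑ a : Fin J, win M n ℓ a w := by
      funext w; exact RR_zero M w
    rwa [e] at this
  · have := RR_mean (M := M) h n T J ℓ 0
    simp_rw [RR_zero] at this
    exact this
  · have h1 := RR_sum (M := M) (n := n) hE5 h hJ 0 (Nat.zero_le _)
    simp_rw [RR_zero] at h1
    rw [h1]
    apply add_le_add _ (RR_last hK0 hK1 hP2 h hn hJ hD hM)
    calc _ ≤ ∑ b ∈ Ico 0 J, (s / (1 - s * Rn (n + T))) * (s / (3 * n)) *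
          (1 / (1 - s * Rn (n + T))) * ∑ k ∈ range ℓ, (Rn (T + k) - Rn k) := by
          apply Finset.sum_le_sum
          intro b hb
          rw [mem_Ico] at hb
          exact dd_sq hK0 hK1 hE2 hE5 hP2 h hn hℓ hJ hb.2 hD hM
      _ = _ := by
          rw [Finset.sum_const, Nat.card_Ico, nsmul_eq_mul]
          simp only [tsub_zero]
          ring

end Pool.Agent.H22.QC.ND1
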